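import Mathlib
import Pool.Agent.Helper543.Small

/-! Lower bounds for the number of circles of a small configuration: tables and the case of
fourteen points. -/

namespace Pool.Agent.H111C.Low

open Finset Pool.Agent.Helper543.Count Pool.Agent.Helper543.Bounds Pool.Agent.Helper543.Small

variable {α : Type} [DecidableEq α]

/-- multipliers around a circle -/
def tabA2 (n m : ℕ) : Wt :=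
  match n, m with
  | 5, 3 => ⟨6, 3, 3, 0, -1, -2, -1, 0, 0, 0, 0, 2, 0, 0⟩
  | 6, 3 => ⟨6, 3, 3, 1, -1, -2, -1, 0, 0, 0, 0, 2, 0, 0⟩
  | 7, 3 => ⟨6, 3, 3, 1, -1, -2, -1, 0, 0, 0, 0, 2, 0, 0⟩
  | 7, 5 => ⟨2, 1, 0, 0, 0, 0, 0, 0, 0, 0, 0, 0, 1, 2⟩
  | 8, 3 => ⟨6, 3, 3, 1, -1, -2, -1, 0, 0, 0, 0, 2, 0, 0⟩
  | 8, 5 => ⟨2, 1, 0, 0, 0, 0, 0, 0, 0, 0, 0, 0, 1, 2⟩
  | 8, 6 => ⟨4, 2, -1, 0, 0, -2, 0, 0, 0, 0, 0, 0, 0, 0⟩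
  | 9, 3 => ⟨6, 3, 3, 1, -1, -2, -1, 0, 0, 0, 0, 2, 0, 0⟩
  | 9, 4 => ⟨72, 9, 9, 3, -8, -16, -8, 10, 10, 8, 8, 0, 0, 0⟩
  | 9, 5 => ⟨120, 57, 4, 4, 0, -6, -6, 0, 0, 0, 6, 0, 62, 102⟩
  | 9, 6 => ⟨4, 2, -1, 0, 0, -2, 0, 0, 0, 0, 0, 0, 0, 0⟩
  | 9, 7 => ⟨2, 1, 0, 0, 0, 0, 0, 0, 0, 0, 0, 0, 1, 2⟩
  | 10, 3 => ⟨6, 3, 3, 1, -1, -2, -1, 0, 0, 0, 0, 2, 0, 0⟩
  | 10, 4 => ⟨48, 6, 6, 2, -3, -6, -3, 2, 2, 3, 3, 0, 0, 0⟩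
  | 10, 5 => ⟨2394, 387, 306, 75, -266, -532, -266, 220, 382, 266, 266, 0, 189, 0⟩
  | 10, 6 => ⟨96, 45, -21, 4, 0, -45, -6, 0, 0, 0, 6, 0, 0, 0⟩
  | 10, 7 => ⟨2, 1, 0, 0, 0, 0, 0, 0, 0, 0, 0, 0, 1, 2⟩
  | 10, 8 => ⟨4, 2, -1, 0, 0, -2, 0, 0, 0, 0, 0, 0, 0, 0⟩
  | 11, 3 => ⟨6, 3, 3, 1, -1, -2, -1, 0, 0, 0, 0, 2, 0, 0⟩
  | 11, 4 => ⟨48, 6, 6, 2, -3, -6, -3, 2, 2, 3, 3, 0, 0, 0⟩
  | 11, 5 => ⟨2394, 387, 306, 75, -266, -532, -266, 220, 382, 266, 266, 0, 189, 0⟩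
  | 11, 6 => ⟨2100, 664, -139, 48, -308, -392, -84, 0, 72, 308, 84, 0, 0, 0⟩
  | 11, 7 => ⟨2, 1, 0, 0, 0, 0, 0, 0, 0, 0, 0, 0, 1, 2⟩
  | 11, 8 => ⟨4, 2, -1, 0, 0, -2, 0, 0, 0, 0, 0, 0, 0, 0⟩
  | 11, 9 => ⟨2, 1, 0, 0, 0, 0, 0, 0, 0, 0, 0, 0, 1, 2⟩
  | 12, 3 => ⟨6, 3, 3, 1, -1, -2, -1, 0, 0, 0, 0, 2, 0, 0⟩
  | 12, 4 => ⟨48, 6, 6, 2, -3, -6, -3, 2, 2, 3, 3, 0, 0, 0⟩
  | 12, 5 => ⟨2394, 387, 306, 75, -266, -532, -266, 220, 382, 266, 266, 0, 189, 0⟩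
  | 12, 6 => ⟨144, 27, 9, 5, -16, -32, -16, 10, 22, 16, 16, 0, 0, 0⟩
  | 12, 7 => ⟨2, 1, 0, 0, 0, 0, 0, 0, 0, 0, 0, 0, 1, 2⟩
  | 12, 8 => ⟨4, 2, -1, 0, 0, -2, 0, 0, 0, 0, 0, 0, 0, 0⟩
  | 12, 9 => ⟨2, 1, 0, 0, 0, 0, 0, 0, 0, 0, 0, 0, 1, 2⟩
  | 12, 10 => ⟨4, 2, -1, 0, 0, -2, 0, 0, 0, 0, 0, 0, 0, 0⟩
  | 13, 3 => ⟨6, 3, 3, 1, -1, -2, -1, 0, 0, 0, 0, 2, 0, 0⟩
  | 13, 4 => ⟨48, 6, 6, 2, -3, -6, -3, 2, 2, 3, 3, 0, 0, 0⟩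
  | 13, 5 => ⟨315, 36, 36, 12, -35, -70, -35, 46, 46, 35, 35, 0, 0, 0⟩
  | 13, 6 => ⟨144, 21, 15, 3, -16, -32, -16, 14, 26, 16, 16, 0, 0, 0⟩
  | 13, 7 => ⟨42, 15, 2, 0, -6, -6, 0, 0, 0, 6, 0, 0, 13, 6⟩
  | 13, 8 => ⟨4, 2, -1, 0, 0, -2, 0, 0, 0, 0, 0, 0, 0, 0⟩
  | 13, 9 => ⟨2, 1, 0, 0, 0, 0, 0, 0, 0, 0, 0, 0, 1, 2⟩
  | 13, 10 => ⟨4, 2, -1, 0, 0, -2, 0, 0, 0, 0, 0, 0, 0, 0⟩
  | 13, 11 => ⟨2, 1, 0, 0, 0, 0, 0, 0, 0, 0, 0, 0, 1, 2⟩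
  | 14, 3 => ⟨6, 3, 3, 1, -1, -2, -1, 0, 0, 0, 0, 2, 0, 0⟩
  | 14, 4 => ⟨48, 6, 6, 2, -3, -6, -3, 2, 2, 3, 3, 0, 0, 0⟩
  | 14, 5 => ⟨315, 36, 36, 12, -35, -70, -35, 46, 46, 35, 35, 0, 0, 0⟩
  | 14, 7 => ⟨522, 89, 64, 13, -58, -116, -58, 40, 90, 58, 58, 0, 45, 0⟩
  | 14, 8 => ⟨360, 175, -85, 4, 0, -175, -10, 0, 0, 0, 10, 0, 0, 0⟩
  | 14, 9 => ⟨2, 1, 0, 0, 0, 0, 0, 0, 0, 0, 0, 0, 1, 2⟩
  | 14, 10 => ⟨4, 2, -1, 0, 0, -2, 0, 0, 0, 0, 0, 0, 0, 0⟩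
  | 14, 11 => ⟨2, 1, 0, 0, 0, 0, 0, 0, 0, 0, 0, 0, 1, 2⟩
  | 14, 12 => ⟨4, 2, -1, 0, 0, -2, 0, 0, 0, 0, 0, 0, 0, 0⟩
  | _, _ => ⟨0, 0, 0, 0, 0, 0, 0, 0, 0, 0, 0, 0, 0, 0⟩

/-- multipliers around a line -/
def tabB2 (n m : ℕ) : Wt :=
  match n, m with
  | 5, 3 => ⟨2, 1, 1, 0, 0, 0, -1, 0, 0, 0, 0, 0, 0, 0⟩
  | 6, 3 => ⟨6, 3, 3, 1, 0, 0, -3, 0, 0, 0, 0, 0, 0, 0⟩
  | 6, 4 => ⟨4, 2, -1, 0, 0, 0, 0, 0, 0, 0, 0, 0, 0, 0⟩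
  | 7, 3 => ⟨6, 3, 3, 1, 0, -2, -1, 0, 0, 0, 0, 2, 0, 0⟩
  | 7, 4 => ⟨4, 2, -1, 0, 0, 0, 0, 0, 0, 0, 0, 0, 0, 0⟩
  | 7, 5 => ⟨2, 1, 0, 0, 0, 0, 0, 0, 0, 0, 0, 0, 1, 0⟩
  | 8, 3 => ⟨6, 3, 3, 1, 0, -2, -1, 0, 0, 0, 0, 2, 0, 0⟩
  | 8, 5 => ⟨2, 1, 0, 0, 0, 0, 0, 0, 0, 0, 0, 0, 1, 0⟩
  | 8, 6 => ⟨4, 2, -1, 0, 0, 0, 0, 0, 0, 0, 0, 0, 0, 0⟩
  | 9, 3 => ⟨6, 3, 3, 1, 0, -2, -1, 0, 0, 0, 0, 2, 0, 0⟩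
  | 9, 4 => ⟨96, 12, 12, 4, 0, -19, -6, 18, 4, 13, 6, 0, 0, 0⟩
  | 9, 5 => ⟨2, 1, 0, 0, 0, 0, 0, 0, 0, 0, 0, 0, 1, 0⟩
  | 9, 6 => ⟨4, 2, -1, 0, 0, 0, 0, 0, 0, 0, 0, 0, 0, 0⟩
  | 9, 7 => ⟨2, 1, 0, 0, 0, 0, 0, 0, 0, 0, 0, 0, 1, 0⟩
  | 10, 3 => ⟨6, 3, 3, 1, 0, -2, -1, 0, 0, 0, 0, 2, 0, 0⟩
  | 10, 4 => ⟨96, 12, 12, 4, 0, -19, -6, 18, 4, 13, 6, 0, 0, 0⟩
  | 10, 5 => ⟨420, 192, 27, 10, 0, -21, -21, 0, 15, 0, 21, 0, 228, 0⟩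
  | 10, 6 => ⟨4, 2, -1, 0, 0, 0, 0, 0, 0, 0, 0, 0, 0, 0⟩
  | 10, 7 => ⟨2, 1, 0, 0, 0, 0, 0, 0, 0, 0, 0, 0, 1, 0⟩
  | 10, 8 => ⟨4, 2, -1, 0, 0, 0, 0, 0, 0, 0, 0, 0, 0, 0⟩
  | 11, 3 => ⟨6, 3, 3, 1, 0, -2, -1, 0, 0, 0, 0, 2, 0, 0⟩
  | 11, 4 => ⟨96, 12, 12, 4, 0, -19, -6, 18, 4, 13, 6, 0, 0, 0⟩
  | 11, 5 => ⟨5040, 900, 549, 192, 0, -994, -560, 538, 736, 434, 560, 0, 378, 0⟩
  | 11, 6 => ⟨140, 66, -31, 3, 0, 0, -7, 0, 8, 0, 0, 0, 0, 0⟩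
  | 11, 7 => ⟨2, 1, 0, 0, 0, 0, 0, 0, 0, 0, 0, 0, 1, 0⟩
  | 11, 8 => ⟨4, 2, -1, 0, 0, 0, 0, 0, 0, 0, 0, 0, 0, 0⟩
  | 11, 9 => ⟨2, 1, 0, 0, 0, 0, 0, 0, 0, 0, 0, 0, 1, 0⟩
  | 12, 3 => ⟨6, 3, 3, 1, 0, -2, -1, 0, 0, 0, 0, 2, 0, 0⟩
  | 12, 4 => ⟨96, 12, 12, 4, 0, -19, -6, 18, 4, 13, 6, 0, 0, 0⟩
  | 12, 5 => ⟨5040, 900, 549, 192, 0, -994, -560, 538, 736, 434, 560, 0, 378, 0⟩
  | 12, 6 => ⟨360, 105, -15, 4, 0, -10, -10, 70, 0, 0, 10, 0, 0, 0⟩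
  | 12, 7 => ⟨2, 1, 0, 0, 0, 0, 0, 0, 0, 0, 0, 0, 1, 0⟩
  | 12, 8 => ⟨4, 2, -1, 0, 0, 0, 0, 0, 0, 0, 0, 0, 0, 0⟩
  | 12, 9 => ⟨2, 1, 0, 0, 0, 0, 0, 0, 0, 0, 0, 0, 1, 0⟩
  | 12, 10 => ⟨4, 2, -1, 0, 0, 0, 0, 0, 0, 0, 0, 0, 0, 0⟩
  | 13, 3 => ⟨6, 3, 3, 1, 0, -2, -1, 0, 0, 0, 0, 2, 0, 0⟩
  | 13, 4 => ⟨96, 12, 12, 4, 0, -19, -6, 18, 4, 13, 6, 0, 0, 0⟩
  | 13, 5 => ⟨315, 36, 36, 12, 0, -70, -35, 46, 46, 35, 35, 0, 0, 0⟩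
  | 13, 6 => ⟨144, 27, 9, 5, 0, -24, -16, 18, 22, 8, 16, 0, 0, 0⟩
  | 13, 7 => ⟨2, 1, 0, 0, 0, 0, 0, 0, 0, 0, 0, 0, 1, 0⟩
  | 13, 8 => ⟨4, 2, -1, 0, 0, 0, 0, 0, 0, 0, 0, 0, 0, 0⟩
  | 13, 9 => ⟨2, 1, 0, 0, 0, 0, 0, 0, 0, 0, 0, 0, 1, 0⟩
  | 13, 10 => ⟨4, 2, -1, 0, 0, 0, 0, 0, 0, 0, 0, 0, 0, 0⟩
  | 13, 11 => ⟨2, 1, 0, 0, 0, 0, 0, 0, 0, 0, 0, 0, 1, 0⟩
  | 14, 3 => ⟨6, 3, 3, 1, 0, -2, -1, 0, 0, 0, 0, 2, 0, 0⟩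
  | 14, 4 => ⟨48, 6, 6, 2, 0, -6, -3, 2, 2, 3, 3, 0, 0, 0⟩
  | 14, 5 => ⟨315, 36, 36, 12, 0, -70, -35, 46, 46, 35, 35, 0, 0, 0⟩
  | 14, 6 => ⟨144, 27, 9, 5, 0, -24, -16, 18, 22, 8, 16, 0, 0, 0⟩
  | 14, 7 => ⟨210, 100, 5, 2, 0, -5, -5, 0, 5, 0, 5, 0, 105, 0⟩
  | 14, 8 => ⟨4, 2, -1, 0, 0, 0, 0, 0, 0, 0, 0, 0, 0, 0⟩
  | 14, 9 => ⟨2, 1, 0, 0, 0, 0, 0, 0, 0, 0, 0, 0, 1, 0⟩
  | 14, 10 => ⟨4, 2, -1, 0, 0, 0, 0, 0, 0, 0, 0, 0, 0, 0⟩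
  | 14, 11 => ⟨2, 1, 0, 0, 0, 0, 0, 0, 0, 0, 0, 0, 1, 0⟩
  | 14, 12 => ⟨4, 2, -1, 0, 0, 0, 0, 0, 0, 0, 0, 0, 0, 0⟩
  | _, _ => ⟨0, 0, 0, 0, 0, 0, 0, 0, 0, 0, 0, 0, 0, 0⟩

/-- validity of multipliers around a circle, target `t` -/
def gA (n m : ℕ) (t : ℤ) (w : Wt) : Prop :=
  (0 ≤ w.D ∧ 0 ≤ w.u1 ∧ 0 ≤ w.u2 ∧ 0 ≤ w.u3 ∧ 0 ≤ w.u4 ∧ 0 ≤ w.u5 ∧ 0 ≤ w.v1 ∧ 0 ≤ w.v2) ∧
  (∀ k < m + 1, ∀ j < 3, 3 ≤ k → j ≤ k → k ≤ n - m + j → Wc w k j ≤ w.D) ∧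
  (∀ k < m + 1, ∀ j < 3, 2 ≤ k → j ≤ k → k ≤ n - m + j → Wl w k j ≤ 0) ∧
  w.D * (t - 1) < R w n m ((m / 2 : ℕ) : ℤ) - Wc w m m

/-- validity of multipliers around a line, target `t` -/
def gB (n m : ℕ) (t : ℤ) (w : Wt) : Prop :=
  (0 ≤ w.D ∧ 0 ≤ w.u1 ∧ 0 ≤ w.u2 ∧ 0 ≤ w.u3 ∧ 0 ≤ w.u4 ∧ 0 ≤ w.u5 ∧ 0 ≤ w.v1 ∧ 0 ≤ w.v2) ∧
  (∀ k < m + 1, ∀ j < 3, 3 ≤ k → j ≤ k → k ≤ n - m + j → Wc w k j ≤ w.D) ∧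
  (∀ k < m + 1, ∀ j < 2, 2 ≤ k → j ≤ k → k ≤ n - m + j → Wl w k j ≤ 0) ∧
  w.D * t < R w n m ((m / 2 : ℕ) : ℤ) - Wl w m m

instance (n m : ℕ) (t : ℤ) (w : Wt) : Decidable (gA n m t w) := by
  unfold gA
  refine @instDecidableAnd _ _ ?_ (@instDecidableAnd _ _ ?_ (@instDecidableAnd _ _ ?_ ?_)) <;>
    infer_instance
instance (n m : ℕ) (t : ℤ) (w : Wt) : Decidable (gB n m t w) := by
  unfold gB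
  refine @instDecidableAnd _ _ ?_ (@instDecidableAnd _ _ ?_ (@instDecidableAnd _ _ ?_ ?_)) <;>
    infer_instance

theorem useA2 (S : Cfg α) {C : Finset α} (hC : C ∈ S.circ)
    (hm : ∀ b ∈ S.B, b.card ≤ C.card) (hm' : ∀ b ∈ S.L, b.card ≤ C.card) (w : Wt) (t : ℤ)
    (hg : gA S.P.card C.card t w) : t < cc S := by
  obtain ⟨⟨h0, h1, h2, h3, h4, h5, h6, h7⟩, hc, hl, hfin⟩ := hg
  have h := caseA S hC w h1 h2 h3 h4 h5 h6 h7 hm hm'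
    (fun k j hk hkm hj hjk hK => hc k (by omega) j (by omega) hk hjk hK)
    (fun k j hk hkm hj hjk hK => hl k (by omega) j (by omega) hk hjk hK)
  by_contra hcon
  push Not at hcon
  nlinarith [mul_le_mul_of_nonneg_left hcon h0]

theorem useB2 (S : Cfg α) {C : Finset α} (hC : C ∈ S.L) (hC3 : 3 ≤ C.card)
    (hm : ∀ b ∈ S.B, b.card ≤ C.card) (hm' : ∀ b ∈ S.L, b.card ≤ C.card) (w : Wt) (t : ℤ)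
    (hg : gB S.P.card C.card t w) : t < cc S := by
  obtain ⟨⟨h0, h1, h2, h3, h4, h5, h6, h7⟩, hc, hl, hfin⟩ := hg
  have h := caseB S hC hC3 w h1 h2 h3 h4 h5 h6 h7 hm hm'
    (fun k j hk hkm hj hjk hK => hc k (by omega) j (by omega) hk hjk hK)
    (fun k j hk hkm hj hjk hK => hl k (by omega) j (by omega) hk hjk hK)
  by_contra hcon
  push Not at hcon
  nlinarith [mul_le_mul_of_nonneg_left hcon h0]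

/-- the certified strict lower bound for `n` points -/
def tgt (n : ℕ) : ℤ :=
  match n with
  | 4 => 2 | 5 => 4 | 6 => 7 | 7 => 10 | 8 => 16 | 9 => 19 | 10 => 26 | 11 => 35 | 12 => 45
  | 13 => 57 | 14 => 72 | _ => 0

/-- the exceptional pairs for circles -/
def excA (n m : ℕ) : Bool := (n, m) ∈ [(6, 4), (7, 4), (8, 4), (14, 6)]

/-- the exceptional pairs for lines -/
def excB (n m : ℕ) : Bool := (n, m) ∈ [(8, 4)]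

theorem tableA : ∀ n < 15, ∀ m < n - 1, 4 ≤ n → 3 ≤ m → excA n m = false →
    gA n m (tgt n) (tabA2 n m) := by
  decide +kernel

theorem tableB : ∀ n < 15, ∀ m < n - 1, 4 ≤ n → 3 ≤ m → excB n m = false →
    gB n m (tgt n) (tabB2 n m) := by
  decide +kernel

theorem tgt_le_T : ∀ n < 15, tgt n ≤ T n := by decide +kernel

theorem exists_max (S : Cfg α) (hn : 3 ≤ S.P.card) (hPB : S.P ∉ S.B) : ∃ C ∈ S.B,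
    (∀ b ∈ S.B, b.card ≤ C.card) ∧ (∀ l ∈ S.L, l.card ≤ C.card) ∧ C.card < S.P.card ∧
    3 ≤ C.card := by
  have hBne : S.B.Nonempty := by
    obtain ⟨x, y, z, hx, hy, hz, hxy, hxz, hyz⟩ := two_lt_card_iff.1 (show 2 < S.P.card by omega)
    obtain ⟨b, hb, _⟩ := S.ex3 x hx y hy z hz hxy hxz hyz
    exact ⟨b, hb⟩
  obtain ⟨C, hCB, hCmax⟩ := exists_max_image S.B card hBne
  have hC3 := S.hB3 C hCB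
  refine ⟨C, hCB, hCmax, ?_, ?_, hC3⟩
  · intro l hl
    by_cases h3 : 3 ≤ l.card
    · exact hCmax l (S.hLB l hl h3)
    · omega
  · apply card_lt_card
    exact (Finset.ssubset_iff_subset_ne).2 ⟨S.hBP C hCB, fun e => hPB (e ▸ hCB)⟩

/-- the table settles every case but the exceptional ones -/
theorem low_or (S : Cfg α) (hn : 4 ≤ S.P.card) (hn' : S.P.card < 15) (hPB : S.P ∉ S.B) :
    tgt S.P.card < cc S ∨ ∃ C ∈ S.B, (∀ b ∈ S.B, b.card ≤ C.card) ∧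
      (∀ l ∈ S.L, l.card ≤ C.card) ∧ ((C ∈ S.circ ∧ excA S.P.card C.card = true) ∨
      (C ∈ S.L ∧ excB S.P.card C.card = true)) := by
  obtain ⟨C, hCB, hm, hm', hlt, hC3⟩ := exists_max S (by omega) hPB
  by_cases hnear : S.P.card = C.card + 1
  · left
    refine lt_of_le_of_lt (tgt_le_T _ hn') ?_
    by_cases hCL : C ∈ S.L
    · exact nearB S hCL hC3 hm hm' hnear
    · exact nearA S (mem_sdiff.2 ⟨hCB, hCL⟩) hm hm' hnear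
  by_cases hCL : C ∈ S.L
  · by_cases he : excB S.P.card C.card = true
    · exact Or.inr ⟨C, hCB, hm, hm', Or.inr ⟨hCL, he⟩⟩
    · left
      exact useB2 S hCL hC3 hm hm' _ _ (tableB _ hn' _ (by omega) hn hC3 (by simpa using he))
  · have hCc : C ∈ S.circ := mem_sdiff.2 ⟨hCB, hCL⟩
    by_cases he : excA S.P.card C.card = true
    · exact Or.inr ⟨C, hCB, hm, hm', Or.inl ⟨hCc, he⟩⟩
    · left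
      exact useA2 S hCc hm hm' _ _ (tableA _ hn' _ (by omega) hn hC3 (by simpa using he))

/-! ### Local identities -/

theorem line_count (S : Cfg α) {p : α} (hp : p ∈ S.P) :
    ∑ l ∈ S.L with p ∈ l, ((l.card : ℤ) - 1) = S.P.card - 1 := by
  have h := E5 S (C := {p}) (singleton_subset_iff.2 hp)
  rw [card_singleton] at h
  rw [sum_filter]
  rw [show ((1 : ℕ) : ℤ) * ((S.P.card : ℤ) - (1 : ℕ)) = S.P.card - 1 by push_cast; ring] at h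
  rw [← h]
  refine sum_congr rfl fun l _ => ?_
  by_cases hpl : p ∈ l
  · rw [if_pos hpl, inter_singleton_of_mem hpl, card_singleton]; push_cast; ring
  · rw [if_neg hpl, inter_singleton_of_notMem hpl, card_empty]; simp

theorem block_count (S : Cfg α) {p : α} (hp : p ∈ S.P) :
    ∑ b ∈ S.B with p ∈ b, ((b.card : ℤ) - 1) * (b.card - 2) =
      ((S.P.card : ℤ) - 1) * (S.P.card - 2) := by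
  have h := E2 S (C := {p}) (singleton_subset_iff.2 hp)
  rw [card_singleton] at h
  rw [sum_filter]
  rw [show ((1 : ℕ) : ℤ) * (((S.P.card : ℤ) - (1 : ℕ)) * ((S.P.card : ℤ) - (1 : ℕ) - 1)) =
    ((S.P.card : ℤ) - 1) * (S.P.card - 2) by push_cast; ring] at h
  rw [← h]
  refine sum_congr rfl fun l _ => ?_
  by_cases hpl : p ∈ l
  · rw [if_pos hpl, inter_singleton_of_mem hpl, card_singleton]; push_cast; ring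
  · rw [if_neg hpl, inter_singleton_of_notMem hpl, card_empty]; simp

theorem pair_count (S : Cfg α) {p x : α} (hp : p ∈ S.P) (hx : x ∈ S.P) (hpx : p ≠ x) :
    ∑ b ∈ S.B with p ∈ b ∧ x ∈ b, ((b.card : ℤ) - 2) = (S.P.card : ℤ) - 2 := by
  have hs : ({p, x} : Finset α) ⊆ S.P := by
    intro z hz
    simp only [mem_insert, mem_singleton] at hz
    rcases hz with rfl | rfl
    · exact hp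
    · exact hx
  have h := E1 S (C := {p, x}) hs
  rw [card_pair hpx] at h
  have h2 : ∑ b ∈ S.B, ((b ∩ {p, x}).card : ℤ) * ((b ∩ {p, x}).card - 1) *
      ((b.card : ℤ) - (b ∩ {p, x}).card) =
      2 * ∑ b ∈ S.B with p ∈ b ∧ x ∈ b, ((b.card : ℤ) - 2) := by
    rw [sum_filter, mul_sum]
    refine sum_congr rfl fun b _ => ?_
    by_cases h1 : p ∈ b <;> by_cases h3 : x ∈ b
    · have e : b ∩ {p, x} = {p, x} := by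
        ext z; simp only [mem_inter, mem_insert, mem_singleton]
        constructor
        · rintro ⟨_, h⟩; exact h
        · rintro (rfl | rfl)
          · exact ⟨h1, Or.inl rfl⟩
          · exact ⟨h3, Or.inr rfl⟩
      rw [if_pos ⟨h1, h3⟩, e, card_pair hpx]; push_cast; ring
    · have e : b ∩ {p, x} = {p} := by
        ext z; simp only [mem_inter, mem_insert, mem_singleton]
        constructor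
        · rintro ⟨hz, rfl | rfl⟩
          · rfl
          · exact absurd hz h3
        · rintro rfl; exact ⟨h1, Or.inl rfl⟩
      rw [if_neg (fun h => h3 h.2), e, card_singleton]; simp
    · have e : b ∩ {p, x} = {x} := by
        ext z; simp only [mem_inter, mem_insert, mem_singleton]
        constructor
        · rintro ⟨hz, rfl | rfl⟩
          · exact absurd hz h1
          · rfl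
        · rintro rfl; exact ⟨h3, Or.inr rfl⟩
      rw [if_neg (fun h => h1 h.1), e, card_singleton]; simp
    · have e : b ∩ {p, x} = ∅ := by
        ext z; simp only [mem_inter, mem_insert, mem_singleton, notMem_empty, iff_false]
        rintro ⟨hz, rfl | rfl⟩
        · exact h1 hz
        · exact h3 hz
      rw [if_neg (fun h => h1 h.1), e, card_empty]; simp
  rw [h2] at h
  push_cast at h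
  linarith

end Pool.Agent.H111C.Low
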