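import Mathlib
import Pool.Agent.H111C.Low

/-! Fourteen points whose largest generalised circle is a circle with six points. -/

namespace Pool.Agent.H111C.Low14

open Finset Pool.Agent.Helper543.Count Pool.Agent.Helper543.Bounds Pool.Agent.Helper543.Small
open Pool.Agent.H111C.Low

variable {α : Type} [DecidableEq α]

/-- weight of a line with `k` points -/
def sl (k : ℕ) : ℤ :=
  ((k : ℤ) - 3) + (if 3 ≤ k then (k : ℤ) - 4 else 0) - (if k = 4 ∨ k = 5 then 1 else 0)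

theorem loc14 (S : Cfg α) (hn : S.P.card = 14) (h6 : ∀ l ∈ S.L, l.card ≤ 6) {p : α}
    (hp : p ∈ S.P) : ∑ b ∈ S.circ with p ∈ b, (2 * ((b.card : ℤ) - 4)) +
      ∑ l ∈ S.L with p ∈ l, sl l.card ≤ -7 := by
  have e1 := S.m1 p hp
  have e2 := S.m2 p hp
  have e3 := line_count S hp
  rw [hn] at e3
  rw [sum_filter, split_B] at e1
  have hX : ∑ b ∈ S.circ, (if p ∈ b then ((b.card : ℤ) - 4) else 0) =
      ∑ b ∈ S.circ with p ∈ b, ((b.card : ℤ) - 4) := by rw [sum_filter]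
  have hY : ∑ l ∈ S.L, (if (3 : ℤ) ≤ l.card then (if p ∈ l then ((l.card : ℤ) - 4) else 0) else 0) =
      ∑ l ∈ S.L with p ∈ l, (if 3 ≤ l.card then (l.card : ℤ) - 4 else 0) := by
    rw [sum_filter]
    refine sum_congr rfl fun l _ => ?_
    by_cases h3 : 3 ≤ l.card
    · have h3' : (3 : ℤ) ≤ l.card := by exact_mod_cast h3
      rw [if_pos h3', if_pos h3]
    · have h3' : ¬ (3 : ℤ) ≤ l.card := by exact_mod_cast h3
      rw [if_neg h3', if_neg h3]; simp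
  rw [hX, hY] at e1
  change ∑ b ∈ S.circ with p ∈ b, ((b.card : ℤ) - 4) + _ ≤ -3 at e2
  have hG : ∑ b ∈ S.circ with p ∈ b, (2 * ((b.card : ℤ) - 4)) =
      2 * ∑ b ∈ S.circ with p ∈ b, ((b.card : ℤ) - 4) := by rw [mul_sum]
  have hS : ∑ l ∈ S.L with p ∈ l, sl l.card = ∑ l ∈ S.L with p ∈ l, ((l.card : ℤ) - 3) +
      ∑ l ∈ S.L with p ∈ l, (if 3 ≤ l.card then (l.card : ℤ) - 4 else 0) -
      ∑ l ∈ S.L with p ∈ l, (if l.card = 4 ∨ l.card = 5 then (1 : ℤ) else 0) := by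
    rw [← sum_add_distrib, ← sum_sub_distrib]
    rfl
  rw [hG, hS]
  set X := ∑ b ∈ S.circ with p ∈ b, ((b.card : ℤ) - 4)
  set Y := ∑ l ∈ S.L with p ∈ l, (if 3 ≤ l.card then (l.card : ℤ) - 4 else 0) with hYdef
  set Z := ∑ l ∈ S.L with p ∈ l, ((l.card : ℤ) - 3) with hZdef
  set N := ∑ l ∈ S.L with p ∈ l, (if l.card = 4 ∨ l.card = 5 then (1 : ℤ) else 0) with hNdef
  have hN0 : 0 ≤ N := sum_nonneg fun l _ => by split_ifs <;> norm_num
  by_cases hN : N = 0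
  · have hall : ∀ l ∈ S.L.filter (fun l => p ∈ l), ¬ (l.card = 4 ∨ l.card = 5) := by
      intro l hl hcon
      have h := (sum_eq_zero_iff_of_nonneg (fun l _ => by split_ifs <;> norm_num)).1
        (hNdef ▸ hN) l hl
      rw [if_pos hcon] at h
      norm_num at h
    have hW : Z - Y + 13 = 3 * ∑ l ∈ S.L with p ∈ l,
        (if l.card = 3 then (1 : ℤ) else if l.card = 6 then 2 else 0) := by
      have h13 : (13 : ℤ) = ∑ l ∈ S.L with p ∈ l, ((l.card : ℤ) - 1) := by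
        rw [e3]; norm_num
      rw [h13, hZdef, hYdef, mul_sum, ← sum_sub_distrib, ← sum_add_distrib]
      refine sum_congr rfl fun l hl => ?_
      have h1 := hall l hl
      have h2 := S.hL2 l (mem_filter.1 hl).1
      have h3 := h6 l (mem_filter.1 hl).1
      push Not at h1
      generalize l.card = k at *
      interval_cases k <;> simp_all
    omega
  · omega

/-- weight of a circle -/
def Vc (w : Wt) (s1 s2 k j : ℤ) : ℤ :=
  Wc w k j - s1 * (j * (2 * (k - 4))) - s2 * ((k - j) * (2 * (k - 4)))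

/-- weight of a line -/
def Vl (w : Wt) (s1 s2 : ℤ) (k j : ℕ) : ℤ :=
  Wl w k j - s1 * (j * sl k) - s2 * (((k : ℤ) - j) * sl k)

theorem cert14 (S : Cfg α) (hn : S.P.card = 14) (h6 : ∀ l ∈ S.L, l.card ≤ 6)
    {C : Finset α} (hC : C ⊆ S.P) (w : Wt) (s1 s2 : ℤ) (h1 : 0 ≤ w.u1)
    (h2 : 0 ≤ w.u2) (h3 : 0 ≤ w.u3) (h4 : 0 ≤ w.u4) (h5 : 0 ≤ w.u5) (h6' : 0 ≤ w.v1)
    (h7 : 0 ≤ w.v2) (hs1 : 0 ≤ s1) (hs2 : 0 ≤ s2) :
    R w S.P.card C.card ((C.card / 2 : ℕ) : ℤ) + 7 * s1 * C.card +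
      7 * s2 * ((S.P.card : ℤ) - C.card) ≤
      ∑ b ∈ S.circ, Vc w s1 s2 b.card (b ∩ C).card + ∑ l ∈ S.L, Vl w s1 s2 l.card (l ∩ C).card := by
  have h := cert S hC w h1 h2 h3 h4 h5 h6' h7
  -- sum over `C`
  have k1 : ∑ b ∈ S.circ, ((b ∩ C).card : ℤ) * (2 * ((b.card : ℤ) - 4)) +
      ∑ l ∈ S.L, ((l ∩ C).card : ℤ) * sl l.card ≤ -7 * C.card := by
    rw [← sum_point, ← sum_point, ← sum_add_distrib]
    calc _ ≤ ∑ p ∈ C, (-7 : ℤ) := sum_le_sum fun p hp => loc14 S hn h6 (hC hp)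
      _ = _ := by rw [sum_const, nsmul_eq_mul]; ring
  have k2 : ∑ b ∈ S.circ, (((b ∩ (S.P \ C)).card : ℤ)) * (2 * ((b.card : ℤ) - 4)) +
      ∑ l ∈ S.L, (((l ∩ (S.P \ C)).card : ℤ)) * sl l.card ≤ -7 * ((S.P \ C).card : ℤ) := by
    rw [← sum_point, ← sum_point, ← sum_add_distrib]
    calc _ ≤ ∑ p ∈ S.P \ C, (-7 : ℤ) :=
          sum_le_sum fun p hp => loc14 S hn h6 (mem_sdiff.1 hp).1
      _ = _ := by rw [sum_const, nsmul_eq_mul]; ring
  have hI : ∀ b, b ⊆ S.P → ((b ∩ (S.P \ C)).card : ℤ) = (b.card : ℤ) - (b ∩ C).card := by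
    intro b this
    rw [← card_sdiff_int]
    congr 2
    ext x
    simp only [mem_inter, mem_sdiff]
    constructor
    · rintro ⟨h1, _, h3⟩; exact ⟨h1, h3⟩
    · rintro ⟨h1, h3⟩; exact ⟨h1, this h1, h3⟩
  rw [sum_congr rfl fun b hb => by rw [hI b (S.hBP b (mem_sdiff.1 hb).1)],
    sum_congr (s₁ := S.L) rfl fun b hb => by rw [hI b (S.hLP b hb)]] at k2
  have hK : ((S.P \ C).card : ℤ) = (S.P.card : ℤ) - C.card := by
    rw [card_sdiff_int, inter_eq_right.2 hC]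
  rw [hK] at k2
  have key : ∑ b ∈ S.circ, Vc w s1 s2 b.card (b ∩ C).card +
      ∑ l ∈ S.L, Vl w s1 s2 l.card (l ∩ C).card =
      (∑ b ∈ S.circ, Wc w b.card (b ∩ C).card + ∑ l ∈ S.L, Wl w l.card (l ∩ C).card) -
      s1 * (∑ b ∈ S.circ, ((b ∩ C).card : ℤ) * (2 * ((b.card : ℤ) - 4)) +
        ∑ l ∈ S.L, ((l ∩ C).card : ℤ) * sl l.card) -
      s2 * (∑ b ∈ S.circ, ((b.card : ℤ) - (b ∩ C).card) * (2 * ((b.card : ℤ) - 4)) +
        ∑ l ∈ S.L, ((l.card : ℤ) - (l ∩ C).card) * sl l.card) := by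
    simp only [Vc, Vl, sum_sub_distrib, ← mul_sum]
    ring
  rw [key]
  have m1 := mul_le_mul_of_nonneg_left k1 hs1
  have m2 := mul_le_mul_of_nonneg_left k2 hs2
  linarith

/-- the multipliers -/
def w14 : Wt := ⟨144, 21, 15, 3, -16, -32, -16, 0, 10, 2, 0, 0, 0, 0⟩

theorem good14 : (∀ k < 7, ∀ j < 3, 3 ≤ k → j ≤ k → Vc w14 14 16 (k : ℕ) (j : ℕ) ≤ 144) ∧
    (∀ k < 7, ∀ j < 3, 2 ≤ k → j ≤ k → Vl w14 14 16 k j ≤ 0) ∧
    144 * 71 < R w14 14 6 3 + 7 * 14 * 6 + 7 * 16 * 8 - Vc w14 14 16 6 6 := by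
  decide +kernel

theorem low14 (S : Cfg α) (hn : S.P.card = 14) {C : Finset α} (hC : C ∈ S.circ)
    (hC6 : C.card = 6) (hm : ∀ b ∈ S.B, b.card ≤ C.card) (hm' : ∀ b ∈ S.L, b.card ≤ C.card) :
    72 < cc S := by
  have hCB := (mem_sdiff.1 hC).1
  have hCL := (mem_sdiff.1 hC).2
  have hCP := S.hBP C hCB
  rw [hC6] at hm hm'
  obtain ⟨g1, g2, g3⟩ := good14
  have h := cert14 S hn hm' hCP w14 14 16 (by decide) (by decide) (by decide) (by decide)
    (by decide) (by decide) (by decide) (by decide) (by decide)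
  have hcirc : ∑ b ∈ S.circ, Vc w14 14 16 b.card (b ∩ C).card ≤
      Vc w14 14 16 C.card C.card + 144 * (cc S - 1) := by
    rw [← add_sum_erase S.circ _ hC, inter_self]
    have : ∑ b ∈ S.circ.erase C, Vc w14 14 16 b.card (b ∩ C).card ≤
        ∑ b ∈ S.circ.erase C, (144 : ℤ) := by
      apply sum_le_sum
      intro b hb
      have hbne := ne_of_mem_erase hb
      have hbc := mem_of_mem_erase hb
      have hbB := (mem_sdiff.1 hbc).1
      have h2 := inter_le_two S hbB hCB hbne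
      have h6 := hm b hbB
      exact g1 b.card (by omega) (b ∩ C).card (by omega) (S.hB3 b hbB)
        (card_le_card inter_subset_left)
    rw [sum_const, card_erase_of_mem hC, nsmul_eq_mul] at this
    have hpos : 1 ≤ S.circ.card := card_pos.2 ⟨C, hC⟩
    have hcast : ((S.circ.card - 1 : ℕ) : ℤ) = cc S - 1 := by
      unfold cc; push_cast [Nat.cast_sub hpos]; ring
    rw [hcast] at this
    linarith
  have hlin : ∑ l ∈ S.L, Vl w14 14 16 l.card (l ∩ C).card ≤ 0 := by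
    apply sum_nonpos
    intro l hlL
    have hj2 : (l ∩ C).card ≤ 2 := by
      by_cases h3 : 3 ≤ l.card
      · have hlB := S.hLB l hlL h3
        exact inter_le_two S hlB hCB (fun e => hCL (e ▸ hlL))
      · have := card_le_card (inter_subset_left : l ∩ C ⊆ l)
        omega
    have h6 := hm' l hlL
    exact g2 l.card (by omega) (l ∩ C).card (by omega) (S.hL2 l hlL)
      (card_le_card inter_subset_left)
  rw [hn, hC6] at h
  rw [hC6] at hcirc
  push_cast at h hcirc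
  norm_num at h hcirc g3
  linarith

end Pool.Agent.H111C.Low14
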