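import Mathlib
import Pool.Agent.Helper543.PlaneC

/-! A complete quadrilateral whose three pairs of opposite vertices are pairwise concyclic does
not exist in the real plane. -/

namespace Pool.Agent.H111C.Geo

open Pool.Agent.Helper543.Melchior Pool.Agent.Helper543.Blocks Pool.Agent.Helper543.PlaneC

/-- concyclicity (or collinearity) of four points is kept by an inversion -/
lemma G_iv {p a b c d : Pt} (ha : a ≠ p) (hb : b ≠ p) (hc : c ≠ p) (hd : d ≠ p)
    (h : G a b c d = 0) : G (iv p a) (iv p b) (iv p c) (iv p d) = 0 := by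
  have na := (nrm_pos ha).ne'
  have nb := (nrm_pos hb).ne'
  have nc := (nrm_pos hc).ne'
  have nd := (nrm_pos hd).ne'
  have key : G (iv p a) (iv p b) (iv p c) (iv p d) *
      (nrm p a * nrm p b * nrm p c * nrm p d) = - G a b c d := by
    have ea : nrm p a = (a.1 - p.1) ^ 2 + (a.2 - p.2) ^ 2 := rfl
    have eb : nrm p b = (b.1 - p.1) ^ 2 + (b.2 - p.2) ^ 2 := rfl
    have ec : nrm p c = (c.1 - p.1) ^ 2 + (c.2 - p.2) ^ 2 := rfl
    have ed : nrm p d = (d.1 - p.1) ^ 2 + (d.2 - p.2) ^ 2 := rfl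
    rw [G_key 0 0 0]
    simp only [iv]
    have fa : ((a.1 - p.1) / nrm p a) ^ 2 + ((a.2 - p.2) / nrm p a) ^ 2 = 1 / nrm p a := by
      rw [div_pow, div_pow, ← add_div, ← ea]; field_simp
    have fb : ((b.1 - p.1) / nrm p b) ^ 2 + ((b.2 - p.2) / nrm p b) ^ 2 = 1 / nrm p b := by
      rw [div_pow, div_pow, ← add_div, ← eb]; field_simp
    have fc : ((c.1 - p.1) / nrm p c) ^ 2 + ((c.2 - p.2) / nrm p c) ^ 2 = 1 / nrm p c := by
      rw [div_pow, div_pow, ← add_div, ← ec]; field_simp
    have fd : ((d.1 - p.1) / nrm p d) ^ 2 + ((d.2 - p.2) / nrm p d) ^ 2 = 1 / nrm p d := by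
      rw [div_pow, div_pow, ← add_div, ← ed]; field_simp
    simp only [mul_zero, zero_mul, sub_zero]
    rw [fa, fb, fc, fd]
    have gk : G a b c d = cr a c d * (nrm p b) - cr a b d * (nrm p c) +
        cr a b c * (nrm p d) - cr b c d * (nrm p a) := by
      simp only [G, nrm, cr]; ring
    rw [gk]
    simp only [cr]
    generalize nrm p a = A at *
    generalize nrm p b = B at *
    generalize nrm p c = C at *
    generalize nrm p d = D at *
    field_simp
    ring
  rw [h, neg_zero] at key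
  rcases mul_eq_zero.1 key with h1 | h1
  · exact h1
  · exact absurd h1 (by positivity)

lemma param_ne_zero {a b x : Pt} {s : ℝ} (h1 : x.1 - a.1 = s * (b.1 - a.1))
    (h2 : x.2 - a.2 = s * (b.2 - a.2)) (hx : x ≠ a) : s ≠ 0 := by
  rintro rfl
  apply hx
  ext <;> linarith

lemma param_ne_one {a b x : Pt} {s : ℝ} (h1 : x.1 - a.1 = s * (b.1 - a.1))
    (h2 : x.2 - a.2 = s * (b.2 - a.2)) (hx : x ≠ b) : 1 - s ≠ 0 := by
  intro h
  have : s = 1 := by linarith
  subst this
  apply hx
  ext <;> linarith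

theorem no_quad {y12 y13 y14 y23 y24 y34 : Pt} (hD : cr y12 y13 y23 ≠ 0)
    (h1 : cr y12 y13 y14 = 0) (h2 : cr y12 y23 y24 = 0) (h3 : cr y13 y23 y34 = 0)
    (h4 : cr y14 y24 y34 = 0) (g1 : G y12 y34 y13 y24 = 0) (g2 : G y12 y34 y14 y23 = 0)
    (g3 : G y13 y24 y14 y23 = 0) (n1 : y14 ≠ y12) (n2 : y14 ≠ y13) (n3 : y24 ≠ y12)
    (n4 : y24 ≠ y23) (n5 : y34 ≠ y13) (n6 : y34 ≠ y23) (n7 : y12 ≠ y13) (n8 : y12 ≠ y23)
    (n9 : y13 ≠ y23) : False := by
  obtain ⟨α, a1, a2⟩ := exists_param n7 h1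
  obtain ⟨β, b1, b2⟩ := exists_param n8 h2
  obtain ⟨γ, c1, c2⟩ := exists_param n9 h3
  obtain ⟨p, q, k, o12, o13, o23⟩ := exists_On hD
  have hα := param_ne_zero a1 a2 n1
  have hα' := param_ne_one a1 a2 n2
  have hβ := param_ne_zero b1 b2 n3
  have hβ' := param_ne_one b1 b2 n4
  have hγ := param_ne_zero c1 c2 n5
  have hγ' := param_ne_one c1 c2 n6
  have pa := (nrm_pos n7.symm).ne'
  have pb := (nrm_pos n8.symm).ne'
  have pc := (nrm_pos n9.symm).ne'
  simp only [On] at o12 o13 o23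
  have e14 : y14.1 = y12.1 + α * (y13.1 - y12.1) := by linarith
  have e14' : y14.2 = y12.2 + α * (y13.2 - y12.2) := by linarith
  have e24 : y24.1 = y12.1 + β * (y23.1 - y12.1) := by linarith
  have e24' : y24.2 = y12.2 + β * (y23.2 - y12.2) := by linarith
  have e34 : y34.1 = y13.1 + γ * (y23.1 - y13.1) := by linarith
  have e34' : y34.2 = y13.2 + γ * (y23.2 - y13.2) := by linarith
  have F12 : y12.1 ^ 2 + y12.2 ^ 2 - 2 * p * y12.1 - 2 * q * y12.2 - k = 0 := by linarith
  have F13 : y13.1 ^ 2 + y13.2 ^ 2 - 2 * p * y13.1 - 2 * q * y13.2 - k = 0 := by linarith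
  have F23 : y23.1 ^ 2 + y23.2 ^ 2 - 2 * p * y23.1 - 2 * q * y23.2 - k = 0 := by linarith
  have F14 : y14.1 ^ 2 + y14.2 ^ 2 - 2 * p * y14.1 - 2 * q * y14.2 - k =
      -(α * (1 - α) * nrm y12 y13) := by
    rw [e14, e14']; simp only [nrm]
    linear_combination (1 - α) * F12 + α * F13
  have F24 : y24.1 ^ 2 + y24.2 ^ 2 - 2 * p * y24.1 - 2 * q * y24.2 - k =
      -(β * (1 - β) * nrm y12 y23) := by
    rw [e24, e24']; simp only [nrm]
    linear_combination (1 - β) * F12 + β * F23
  have F34 : y34.1 ^ 2 + y34.2 ^ 2 - 2 * p * y34.1 - 2 * q * y34.2 - k =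
      -(γ * (1 - γ) * nrm y13 y23) := by
    rw [e34, e34']; simp only [nrm]
    linear_combination (1 - γ) * F13 + γ * F23
  rw [G_key p q k, F12, F13, F24, F34] at g1
  rw [G_key p q k, F12, F14, F23, F34] at g2
  rw [G_key p q k, F13, F14, F23, F24] at g3
  have M : (1 - α) * β * (1 - γ) + α * (1 - β) * γ = 0 := by
    have : ((1 - α) * β * (1 - γ) + α * (1 - β) * γ) * cr y12 y13 y23 = 0 := by
      simp only [cr] at h4 ⊢
      rw [e14, e14', e24, e24', e34, e34'] at h4
      linear_combination (-1) * h4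
    rcases mul_eq_zero.1 this with h | h
    · exact h
    · exact absurd h hD
  have E1 : (1 - β) * nrm y12 y23 = (1 - γ) * nrm y13 y23 := by
    have : (β * γ * cr y12 y13 y23) * ((1 - β) * nrm y12 y23 - (1 - γ) * nrm y13 y23) = 0 := by
      have q1 : cr y12 y13 y24 = β * cr y12 y13 y23 := by
        simp only [cr]; rw [e24, e24']; ring
      have q2 : cr y12 y34 y13 = -(γ * cr y12 y13 y23) := by
        simp only [cr]; rw [e34, e34']; ring
      rw [q1, q2] at g1
      linear_combination g1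
    rcases mul_eq_zero.1 this with h | h
    · exact absurd h (mul_ne_zero (mul_ne_zero hβ hγ) hD)
    · linarith
  have E2 : (1 - α) * nrm y12 y13 = γ * nrm y13 y23 := by
    have : (α * (1 - γ) * cr y12 y13 y23) * ((1 - α) * nrm y12 y13 - γ * nrm y13 y23) = 0 := by
      have q1 : cr y12 y14 y23 = α * cr y12 y13 y23 := by
        simp only [cr]; rw [e14, e14']; ring
      have q2 : cr y12 y34 y23 = (1 - γ) * cr y12 y13 y23 := by
        simp only [cr]; rw [e34, e34']; ring
      rw [q1, q2] at g2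
      linear_combination g2
    rcases mul_eq_zero.1 this with h | h
    · exact absurd h (mul_ne_zero (mul_ne_zero hα hγ') hD)
    · linarith
  have E3 : β * nrm y12 y23 = α * nrm y12 y13 := by
    have : ((1 - α) * (1 - β) * cr y12 y13 y23) * (β * nrm y12 y23 - α * nrm y12 y13) = 0 := by
      have q1 : cr y13 y14 y23 = -((1 - α) * cr y12 y13 y23) := by
        simp only [cr]; rw [e14, e14']; ring
      have q2 : cr y13 y24 y23 = -((1 - β) * cr y12 y13 y23) := by
        simp only [cr]; rw [e24, e24']; ring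
      rw [q1, q2] at g3
      linear_combination g3
    rcases mul_eq_zero.1 this with h | h
    · exact absurd h (mul_ne_zero (mul_ne_zero hα' hβ') hD)
    · linarith
  generalize nrm y12 y13 = A at *
  generalize nrm y12 y23 = B at *
  generalize nrm y13 y23 = C at *
  have N : (A * B * C) * (α * (1 - β) * γ - (1 - α) * β * (1 - γ)) = 0 := by
    have t1 : (1 - β) * B * (γ * C) * (α * A) = (1 - γ) * C * ((1 - α) * A) * (β * B) := by
      rw [E1, E2, E3]
    linear_combination t1
  rcases mul_eq_zero.1 N with h | h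
  · exact (mul_ne_zero (mul_ne_zero pa pb) pc) h
  · have : 2 * (α * (1 - β) * γ) = 0 := by linear_combination M + h
    have h5 : α * (1 - β) * γ ≠ 0 := mul_ne_zero (mul_ne_zero hα hβ') hγ
    exact h5 (by linarith)

end Pool.Agent.H111C.Geo
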