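import Mathlib
import Pool.Agent.H111C.Low

/-! Local counts for configurations all of whose generalised circles have at most four points. -/

namespace Pool.Agent.H111C.Loc

open Finset Pool.Agent.Helper543.Count Pool.Agent.Helper543.Bounds Pool.Agent.Helper543.Small
open Pool.Agent.H111C.Low

set_option linter.unusedSectionVars false

variable {α : Type} [DecidableEq α]

/-- indicator of having `k` elements -/
def ic (k : ℕ) (b : Finset α) : ℤ := if b.card = k then 1 else 0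

/-- number of members of `T` with `k` elements -/
def nk (k : ℕ) (T : Finset (Finset α)) : ℤ := ∑ b ∈ T, ic k b

lemma nk_eq (k : ℕ) (T : Finset (Finset α)) : nk k T = (T.filter (fun b => b.card = k)).card := by
  unfold nk ic
  rw [card_filter]; push_cast; rfl

lemma nk_nonneg (k : ℕ) (T : Finset (Finset α)) : 0 ≤ nk k T := by
  rw [nk_eq]; positivity

lemma sum34 (T : Finset (Finset α)) (h : ∀ b ∈ T, 3 ≤ b.card ∧ b.card ≤ 4) (f : ℤ → ℤ) :
    ∑ b ∈ T, f b.card = f 3 * nk 3 T + f 4 * nk 4 T := by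
  unfold nk
  rw [mul_sum, mul_sum, ← sum_add_distrib]
  refine sum_congr rfl fun b hb => ?_
  obtain ⟨h1, h2⟩ := h b hb
  unfold ic
  have : b.card = 3 ∨ b.card = 4 := by omega
  rcases this with e | e <;> rw [e] <;> simp

lemma sum234 (T : Finset (Finset α)) (h : ∀ b ∈ T, 2 ≤ b.card ∧ b.card ≤ 4) (f : ℤ → ℤ) :
    ∑ b ∈ T, f b.card = f 2 * nk 2 T + f 3 * nk 3 T + f 4 * nk 4 T := by
  unfold nk
  rw [mul_sum, mul_sum, mul_sum, ← sum_add_distrib, ← sum_add_distrib]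
  refine sum_congr rfl fun b hb => ?_
  obtain ⟨h1, h2⟩ := h b hb
  unfold ic
  have : b.card = 2 ∨ b.card = 3 ∨ b.card = 4 := by omega
  rcases this with e | e | e <;> rw [e] <;> simp

/-- configurations with all generalised circles of at most four points -/
structure Sm (S : Cfg α) : Prop where
  hB : ∀ b ∈ S.B, b.card ≤ 4
  hL : ∀ l ∈ S.L, l.card ≤ 4

variable {S : Cfg α}

/-- members through `p` -/
def at' (p : α) (T : Finset (Finset α)) : Finset (Finset α) := T.filter (fun b => p ∈ b)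

lemma nk_B (k : ℕ) (hk : 3 ≤ k) (p : α) : nk k (at' p S.B) = nk k (at' p S.circ) + nk k (at' p S.L) := by
  unfold nk at'
  rw [sum_filter, split_B, sum_filter, sum_filter]
  congr 1
  refine sum_congr rfl fun l hl => ?_
  by_cases h3 : (3 : ℤ) ≤ l.card
  · rw [if_pos h3]
  · rw [if_neg h3]
    have h3' : ¬ 3 ≤ l.card := by exact_mod_cast h3
    have h4 : ¬ l.card = k := by omega
    unfold ic
    simp [h4]

lemma nk_B' (k : ℕ) (hk : 3 ≤ k) : nk k S.B = nk k S.circ + nk k S.L := by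
  unfold nk
  rw [split_B]
  congr 1
  refine sum_congr rfl fun l hl => ?_
  by_cases h3 : (3 : ℤ) ≤ l.card
  · rw [if_pos h3]
  · rw [if_neg h3]
    have h3' : ¬ 3 ≤ l.card := by exact_mod_cast h3
    have h4 : ¬ l.card = k := by omega
    unfold ic
    simp [h4]

lemma sum_at (k : ℕ) (T : Finset (Finset α)) (hT : ∀ b ∈ T, b ⊆ S.P) :
    ∑ p ∈ S.P, nk k (at' p T) = k * nk k T := by
  unfold nk at'
  rw [sum_point, mul_sum]
  refine sum_congr rfl fun b hb => ?_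
  rw [inter_eq_left.2 (hT b hb)]
  unfold ic
  by_cases h : b.card = k
  · rw [if_pos h, h]
  · rw [if_neg h]; simp

/-- the local linear facts at a point -/
theorem local_facts (hS : Sm S) {p : α} (hp : p ∈ S.P) :
    2 * (nk 3 (at' p S.circ) + nk 3 (at' p S.L)) + 6 * (nk 4 (at' p S.circ) + nk 4 (at' p S.L)) =
      ((S.P.card : ℤ) - 1) * (S.P.card - 2) ∧
    nk 2 (at' p S.L) + 2 * nk 3 (at' p S.L) + 3 * nk 4 (at' p S.L) = S.P.card - 1 ∧
    3 ≤ nk 3 (at' p S.circ) + nk 3 (at' p S.L) ∧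
    3 + nk 4 (at' p S.L) ≤ nk 3 (at' p S.circ) + nk 2 (at' p S.L) := by
  have e1 := block_count S hp
  have e2 := line_count S hp
  have e3 := S.m1 p hp
  have e4 := S.m2 p hp
  have hBr : ∀ b ∈ at' p S.B, 3 ≤ b.card ∧ b.card ≤ 4 := fun b hb =>
    ⟨S.hB3 b (mem_filter.1 hb).1, hS.hB b (mem_filter.1 hb).1⟩
  have hCr : ∀ b ∈ at' p S.circ, 3 ≤ b.card ∧ b.card ≤ 4 := fun b hb =>
    ⟨S.hB3 b (mem_sdiff.1 (mem_filter.1 hb).1).1, hS.hB b (mem_sdiff.1 (mem_filter.1 hb).1).1⟩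
  have hLr : ∀ b ∈ at' p S.L, 2 ≤ b.card ∧ b.card ≤ 4 := fun b hb =>
    ⟨S.hL2 b (mem_filter.1 hb).1, hS.hL b (mem_filter.1 hb).1⟩
  have f1 := sum34 (at' p S.B) hBr (fun k => (k - 1) * (k - 2))
  have f2 := sum234 (at' p S.L) hLr (fun k => k - 1)
  have f3 := sum34 (at' p S.B) hBr (fun k => k - 4)
  have f4 := sum34 (at' p S.circ) hCr (fun k => k - 4)
  have f5 := sum234 (at' p S.L) hLr (fun k => k - 3)
  have g3 := nk_B (S := S) 3 (by norm_num) p
  have g4 := nk_B (S := S) 4 (by norm_num) p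
  unfold at' at *
  rw [f1, g3, g4] at e1
  rw [f2] at e2
  rw [f3, g3, g4] at e3
  change ∑ b ∈ S.circ with p ∈ b, ((b.card : ℤ) - 4) + _ ≤ -3 at e4
  rw [f4, f5] at e4
  refine ⟨?_, ?_, ?_, ?_⟩ <;> linarith

/-- the global linear facts -/
theorem global_facts (hS : Sm S) :
    6 * (cc S + nk 3 S.L + nk 4 S.L) + 18 * nk 4 S.B =
      (S.P.card : ℤ) * (S.P.card - 1) * (S.P.card - 2) ∧
    2 * nk 2 S.L + 6 * nk 3 S.L + 12 * nk 4 S.L = (S.P.card : ℤ) * (S.P.card - 1) ∧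
    3 + nk 4 S.L ≤ nk 2 S.L ∧ cc S = nk 3 S.circ + nk 4 S.circ := by
  have e1 := Etot S
  have e2 := Epair S
  have e3 := S.m3
  have hBr : ∀ b ∈ S.B, 3 ≤ b.card ∧ b.card ≤ 4 := fun b hb => ⟨S.hB3 b hb, hS.hB b hb⟩
  have hCr : ∀ b ∈ S.circ, 3 ≤ b.card ∧ b.card ≤ 4 := fun b hb =>
    ⟨S.hB3 b (mem_sdiff.1 hb).1, hS.hB b (mem_sdiff.1 hb).1⟩
  have hLr : ∀ b ∈ S.L, 2 ≤ b.card ∧ b.card ≤ 4 := fun b hb => ⟨S.hL2 b hb, hS.hL b hb⟩
  have f1 := sum34 S.B hBr (fun k => k * (k - 1) * (k - 2))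
  have f2 := sum234 S.L hLr (fun k => k * (k - 1))
  have f3 := sum234 S.L hLr (fun k => k - 3)
  have f4 := sum34 S.circ hCr (fun _ => 1)
  rw [sum_const, nsmul_eq_mul, mul_one] at f4
  have g3 := nk_B' (S := S) 3 (by norm_num)
  have g4 := nk_B' (S := S) 4 (by norm_num)
  rw [f1] at e1
  rw [f2] at e2
  rw [f3] at e3
  have f4' : cc S = nk 3 S.circ + nk 4 S.circ := by unfold cc; linarith
  refine ⟨?_, ?_, ?_, f4'⟩
  · rw [g3, g4] at e1
    rw [f4', g4]
    linarith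
  · linarith
  · linarith

end Pool.Agent.H111C.Loc
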