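import Mathlib

/-! Four triples and three quadruples in a set of six points. -/

namespace Pool.Agent.H111C.Quad

open Finset

variable {α : Type} [DecidableEq α]

lemma meets {X a b c : Finset α} (hX : X.card = 6) (haX : a ⊆ X) (hbX : b ⊆ X) (hcX : c ⊆ X)
    (ha : a.card = 3) (hb : b.card = 3) (hc : c.card = 3) (hac : (a ∩ c).card ≤ 1)
    (hbc : (b ∩ c).card ≤ 1) : 1 ≤ (a ∩ b).card := by
  by_contra hcon
  have h1 := card_union_add_card_inter a b
  have h2 : a ∪ b = X := eq_of_subset_of_card_le (union_subset haX hbX) (by omega)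
  have h3 : c = (a ∩ c) ∪ (b ∩ c) := by
    rw [← union_inter_distrib_right, h2]
    exact (inter_eq_right.2 hcX).symm
  have h4 := card_union_le (a ∩ c) (b ∩ c)
  rw [← h3] at h4
  omega

lemma no_common {X a b c : Finset α} {x : α} (hX : X.card = 6) (haX : a ⊆ X) (hbX : b ⊆ X)
    (hcX : c ⊆ X) (ha : a.card = 3) (hb : b.card = 3) (hc : c.card = 3)
    (hab : (a ∩ b).card ≤ 1) (hac : (a ∩ c).card ≤ 1) (hbc : (b ∩ c).card ≤ 1) (hxa : x ∈ a)
    (hxb : x ∈ b) (hxc : x ∈ c) : False := by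
  have h1 := card_union_add_card_inter a b
  have h2 := card_union_add_card_inter (a ∪ b) c
  have h3 : (a ∪ b) ∩ c ⊆ {x} := by
    rw [union_inter_distrib_right]
    intro z hz
    rw [mem_union] at hz
    rw [mem_singleton]
    rcases hz with h | h
    · exact card_le_one.1 hac z h x (mem_inter.2 ⟨hxa, hxc⟩)
    · exact card_le_one.1 hbc z h x (mem_inter.2 ⟨hxb, hxc⟩)
  have h4 := card_le_card h3
  rw [card_singleton] at h4
  have h5 : ((a ∪ b) ∪ c).card ≤ X.card :=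
    card_le_card (union_subset (union_subset haX hbX) hcX)
  omega

/-- the conclusion: a complete quadrilateral with the three quadruples complementary to the pairs
of opposite vertices -/
structure Conf (T R : Finset (Finset α)) (x12 x13 x14 x23 x24 x34 : α) : Prop where
  d1 : x12 ≠ x13
  d2 : x12 ≠ x14
  d3 : x12 ≠ x23
  d4 : x12 ≠ x24
  d5 : x12 ≠ x34
  d6 : x13 ≠ x14
  d7 : x13 ≠ x23
  d8 : x13 ≠ x24
  d9 : x13 ≠ x34
  d10 : x14 ≠ x23
  d11 : x14 ≠ x24
  d12 : x14 ≠ x34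
  d13 : x23 ≠ x24
  d14 : x23 ≠ x34
  d15 : x24 ≠ x34
  t1 : ∃ t ∈ T, x12 ∈ t ∧ x13 ∈ t ∧ x14 ∈ t
  t2 : ∃ t ∈ T, x12 ∈ t ∧ x23 ∈ t ∧ x24 ∈ t
  t3 : ∃ t ∈ T, x13 ∈ t ∧ x23 ∈ t ∧ x34 ∈ t
  t4 : ∃ t ∈ T, x14 ∈ t ∧ x24 ∈ t ∧ x34 ∈ t
  nt : ∀ t ∈ T, ¬ (x12 ∈ t ∧ x13 ∈ t ∧ x23 ∈ t)
  r1 : ∃ r ∈ R, x12 ∈ r ∧ x34 ∈ r ∧ x13 ∈ r ∧ x24 ∈ r
  r2 : ∃ r ∈ R, x12 ∈ r ∧ x34 ∈ r ∧ x14 ∈ r ∧ x23 ∈ r
  r3 : ∃ r ∈ R, x13 ∈ r ∧ x24 ∈ r ∧ x14 ∈ r ∧ x23 ∈ r

theorem quad {X : Finset α} (hX : X.card = 6) {T R : Finset (Finset α)} (hT : T.card = 4)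
    (hTX : ∀ t ∈ T, t ⊆ X) (hT3 : ∀ t ∈ T, t.card = 3)
    (hTT : ∀ t ∈ T, ∀ t' ∈ T, t ≠ t' → (t ∩ t').card ≤ 1) (hR : R.card = 3)
    (hRX : ∀ r ∈ R, r ⊆ X) (hR4 : ∀ r ∈ R, r.card = 4)
    (hRT : ∀ r ∈ R, ∀ t ∈ T, (r ∩ t).card ≤ 2) :
    ∃ x12 x13 x14 x23 x24 x34 : α, Conf T R x12 x13 x14 x23 x24 x34 := by
  obtain ⟨t1, ht1⟩ : T.Nonempty := card_pos.1 (by omega)
  have hT' : (T.erase t1).card = 3 := by rw [card_erase_of_mem ht1]; omega
  obtain ⟨t2, t3, t4, h23, h24, h34, hE⟩ := card_eq_three.1 hT'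
  have ht2' : t2 ∈ T.erase t1 := by rw [hE]; simp
  have ht3' : t3 ∈ T.erase t1 := by rw [hE]; simp
  have ht4' : t4 ∈ T.erase t1 := by rw [hE]; simp
  rw [mem_erase] at ht2' ht3' ht4'
  obtain ⟨h12, ht2⟩ := ht2'
  obtain ⟨h13, ht3⟩ := ht3'
  obtain ⟨h14, ht4⟩ := ht4'
  have hTeq : ∀ t ∈ T, t = t1 ∨ t = t2 ∨ t = t3 ∨ t = t4 := by
    intro t ht
    by_cases h : t = t1
    · exact Or.inl h
    · have : t ∈ T.erase t1 := mem_erase.2 ⟨h, ht⟩
      rw [hE] at this
      simp only [mem_insert, mem_singleton] at this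
      exact Or.inr this
  have s1 := hTX t1 ht1
  have s2 := hTX t2 ht2
  have s3 := hTX t3 ht3
  have s4 := hTX t4 ht4
  have c1 := hT3 t1 ht1
  have c2 := hT3 t2 ht2
  have c3 := hT3 t3 ht3
  have c4 := hT3 t4 ht4
  have i12 := hTT t1 ht1 t2 ht2 h12.symm
  have i13 := hTT t1 ht1 t3 ht3 h13.symm
  have i14 := hTT t1 ht1 t4 ht4 h14.symm
  have i23 := hTT t2 ht2 t3 ht3 h23
  have i24 := hTT t2 ht2 t4 ht4 h24
  have i34 := hTT t3 ht3 t4 ht4 h34
  have m12 := meets hX s1 s2 s3 c1 c2 c3 i13 i23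
  have m13 := meets hX s1 s3 s4 c1 c3 c4 i14 i34
  have m14 := meets hX s1 s4 s3 c1 c4 c3 i13 (by rw [inter_comm]; exact i34)
  have m23 := meets hX s2 s3 s4 c2 c3 c4 i24 i34
  have m24 := meets hX s2 s4 s3 c2 c4 c3 i23 (by rw [inter_comm]; exact i34)
  have m34 := meets hX s3 s4 s1 c3 c4 c1 (by rw [inter_comm]; exact i13)
    (by rw [inter_comm]; exact i14)
  obtain ⟨x12, e12⟩ := card_pos.1 m12
  obtain ⟨x13, e13⟩ := card_pos.1 m13
  obtain ⟨x14, e14⟩ := card_pos.1 m14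
  obtain ⟨x23, e23⟩ := card_pos.1 m23
  obtain ⟨x24, e24⟩ := card_pos.1 m24
  obtain ⟨x34, e34⟩ := card_pos.1 m34
  rw [mem_inter] at e12 e13 e14 e23 e24 e34
  have n123 : ∀ x, x ∈ t1 → x ∈ t2 → x ∈ t3 → False := fun x =>
    no_common hX s1 s2 s3 c1 c2 c3 i12 i13 i23
  have n124 : ∀ x, x ∈ t1 → x ∈ t2 → x ∈ t4 → False := fun x =>
    no_common hX s1 s2 s4 c1 c2 c4 i12 i14 i24
  have n134 : ∀ x, x ∈ t1 → x ∈ t3 → x ∈ t4 → False := fun x =>
    no_common hX s1 s3 s4 c1 c3 c4 i13 i14 i34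
  have n234 : ∀ x, x ∈ t2 → x ∈ t3 → x ∈ t4 → False := fun x =>
    no_common hX s2 s3 s4 c2 c3 c4 i23 i24 i34
  have d1 : x12 ≠ x13 := fun e => n123 x12 e12.1 e12.2 (e ▸ e13.2)
  have d2 : x12 ≠ x14 := fun e => n124 x12 e12.1 e12.2 (e ▸ e14.2)
  have d3 : x12 ≠ x23 := fun e => n123 x12 e12.1 e12.2 (e ▸ e23.2)
  have d4 : x12 ≠ x24 := fun e => n124 x12 e12.1 e12.2 (e ▸ e24.2)
  have d5 : x12 ≠ x34 := fun e => n123 x12 e12.1 e12.2 (e ▸ e34.1)
  have d6 : x13 ≠ x14 := fun e => n134 x13 e13.1 e13.2 (e ▸ e14.2)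
  have d7 : x13 ≠ x23 := fun e => n123 x13 e13.1 (e ▸ e23.1) e13.2
  have d8 : x13 ≠ x24 := fun e => n123 x13 e13.1 (e ▸ e24.1) e13.2
  have d9 : x13 ≠ x34 := fun e => n134 x13 e13.1 e13.2 (e ▸ e34.2)
  have d10 : x14 ≠ x23 := fun e => n124 x14 e14.1 (e ▸ e23.1) e14.2
  have d11 : x14 ≠ x24 := fun e => n124 x14 e14.1 (e ▸ e24.1) e14.2
  have d12 : x14 ≠ x34 := fun e => n134 x14 e14.1 (e ▸ e34.1) e14.2
  have d13 : x23 ≠ x24 := fun e => n234 x23 e23.1 e23.2 (e ▸ e24.2)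
  have d14 : x23 ≠ x34 := fun e => n234 x23 e23.1 e23.2 (e ▸ e34.2)
  have d15 : x24 ≠ x34 := fun e => n234 x24 e24.1 (e ▸ e34.1) e24.2
  -- the six points are all of `X`
  have hXeq : ({x12, x13, x14, x23, x24, x34} : Finset α) = X := by
    apply eq_of_subset_of_card_le
    · intro z hz
      simp only [mem_insert, mem_singleton] at hz
      rcases hz with rfl | rfl | rfl | rfl | rfl | rfl
      · exact s1 e12.1
      · exact s1 e13.1
      · exact s1 e14.1
      · exact s2 e23.1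
      · exact s2 e24.1
      · exact s3 e34.1
    · rw [hX, card_insert_of_notMem, card_insert_of_notMem, card_insert_of_notMem,
        card_insert_of_notMem, card_insert_of_notMem, card_singleton]
      all_goals simp only [mem_insert, mem_singleton, not_or]; tauto
  -- complement of a quadruple hits every triple
  have hit : ∀ r ∈ R, ∀ t ∈ T, ∃ z ∈ t, z ∈ X \ r := by
    intro r hr t ht
    by_contra hcon
    push Not at hcon
    have hsub : t ⊆ r ∩ t := by
      intro z hz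
      have h1 := hcon z hz
      rw [mem_sdiff] at h1
      push Not at h1
      exact mem_inter.2 ⟨h1 (hTX t ht hz), hz⟩
    have h2 := card_le_card hsub
    have h3 := hRT r hr t ht
    rw [hT3 t ht] at h2
    omega
  have hcomp : ∀ r ∈ R, (X \ r).card = 2 := by
    intro r hr
    rw [card_sdiff_of_subset (hRX r hr), hX, hR4 r hr]
  have hmemX : ∀ z ∈ X, z = x12 ∨ z = x13 ∨ z = x14 ∨ z = x23 ∨ z = x24 ∨ z = x34 := by
    intro z hz
    rw [← hXeq] at hz
    simpa only [mem_insert, mem_singleton] using hz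
  -- who is in which triple
  have only1 : ∀ z ∈ X, z ∈ t1 → z = x12 ∨ z = x13 ∨ z = x14 := by
    intro z hz h
    rcases hmemX z hz with rfl | rfl | rfl | rfl | rfl | rfl
    · simp
    · simp
    · simp
    · exact (n123 _ h e23.1 e23.2).elim
    · exact (n124 _ h e24.1 e24.2).elim
    · exact (n134 _ h e34.1 e34.2).elim
  have only2 : ∀ z ∈ X, z ∈ t2 → z = x12 ∨ z = x23 ∨ z = x24 := by
    intro z hz h
    rcases hmemX z hz with rfl | rfl | rfl | rfl | rfl | rfl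
    · simp
    · exact (n123 _ e13.1 h e13.2).elim
    · exact (n124 _ e14.1 h e14.2).elim
    · simp
    · simp
    · exact (n234 _ h e34.1 e34.2).elim
  have only3 : ∀ z ∈ X, z ∈ t3 → z = x13 ∨ z = x23 ∨ z = x34 := by
    intro z hz h
    rcases hmemX z hz with rfl | rfl | rfl | rfl | rfl | rfl
    · exact (n123 _ e12.1 e12.2 h).elim
    · simp
    · exact (n134 _ e14.1 h e14.2).elim
    · simp
    · exact (n234 _ e24.1 h e24.2).elim
    · simp
  have only4 : ∀ z ∈ X, z ∈ t4 → z = x14 ∨ z = x24 ∨ z = x34 := by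
    intro z hz h
    rcases hmemX z hz with rfl | rfl | rfl | rfl | rfl | rfl
    · exact (n124 _ e12.1 e12.2 h).elim
    · exact (n134 _ e13.1 e13.2 h).elim
    · simp
    · exact (n234 _ e23.1 e23.2 h).elim
    · simp
    · simp
  have hpair : ∀ r ∈ R, X \ r = {x12, x34} ∨ X \ r = {x13, x24} ∨ X \ r = {x14, x23} := by
    intro r hr
    have hc := hcomp r hr
    obtain ⟨z1, hz1, hz1r⟩ := hit r hr t1 ht1
    have hz1X := (mem_sdiff.1 hz1r).1
    have fin : ∀ u v : α, u ≠ v → u ∈ X \ r → v ∈ X \ r → X \ r = {u, v} := by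
      intro u v huv hu hv
      symm
      apply eq_of_subset_of_card_le
      · intro z hz
        simp only [mem_insert, mem_singleton] at hz
        rcases hz with rfl | rfl
        · exact hu
        · exact hv
      · rw [hc, card_pair huv]
    have two : ∀ u v w : α, u ≠ v → u ≠ w → v ≠ w → u ∈ X \ r → v ∈ X \ r → w ∈ X \ r →
        False := by
      intro u v w huv huw hvw hu hv hw
      have := two_lt_card.2 ⟨u, hu, v, hv, w, hw, huv, huw, hvw⟩
      omega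
    rcases only1 z1 hz1X hz1 with rfl | rfl | rfl
    · -- z1 = x12 : look at t3 and t4
      obtain ⟨z3, hz3, hz3r⟩ := hit r hr t3 ht3
      obtain ⟨z4, hz4, hz4r⟩ := hit r hr t4 ht4
      have a3 := only3 z3 (mem_sdiff.1 hz3r).1 hz3
      have a4 := only4 z4 (mem_sdiff.1 hz4r).1 hz4
      by_cases h : z3 = x34
      · left; exact fin _ _ d5 hz1r (h ▸ hz3r)
      · by_cases h' : z4 = x34
        · left; exact fin _ _ d5 hz1r (h' ▸ hz4r)
        · exfalso
          rcases a3 with rfl | rfl | rfl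
          · rcases a4 with rfl | rfl | rfl
            · exact two _ _ _ d1 d2 d6 hz1r hz3r hz4r
            · exact two _ _ _ d1 d4 d8 hz1r hz3r hz4r
            · exact h' rfl
          · rcases a4 with rfl | rfl | rfl
            · exact two _ _ _ d3 d2 d10.symm hz1r hz3r hz4r
            · exact two _ _ _ d3 d4 d13 hz1r hz3r hz4r
            · exact h' rfl
          · exact h rfl
    · -- z1 = x13 : look at t2 and t4
      obtain ⟨z3, hz3, hz3r⟩ := hit r hr t2 ht2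
      obtain ⟨z4, hz4, hz4r⟩ := hit r hr t4 ht4
      have a3 := only2 z3 (mem_sdiff.1 hz3r).1 hz3
      have a4 := only4 z4 (mem_sdiff.1 hz4r).1 hz4
      by_cases h : z3 = x24
      · right; left; exact fin _ _ d8 hz1r (h ▸ hz3r)
      · by_cases h' : z4 = x24
        · right; left; exact fin _ _ d8 hz1r (h' ▸ hz4r)
        · exfalso
          rcases a3 with rfl | rfl | rfl
          · rcases a4 with rfl | rfl | rfl
            · exact two _ _ _ d1.symm d6 d2 hz1r hz3r hz4r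
            · exact h' rfl
            · exact two _ _ _ d1.symm d9 d5 hz1r hz3r hz4r
          · rcases a4 with rfl | rfl | rfl
            · exact two _ _ _ d7 d6 d10.symm hz1r hz3r hz4r
            · exact h' rfl
            · exact two _ _ _ d7 d9 d14 hz1r hz3r hz4r
          · exact h rfl
    · -- z1 = x14 : look at t2 and t3
      obtain ⟨z3, hz3, hz3r⟩ := hit r hr t2 ht2
      obtain ⟨z4, hz4, hz4r⟩ := hit r hr t3 ht3
      have a3 := only2 z3 (mem_sdiff.1 hz3r).1 hz3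
      have a4 := only3 z4 (mem_sdiff.1 hz4r).1 hz4
      by_cases h : z3 = x23
      · right; right; exact fin _ _ d10 hz1r (h ▸ hz3r)
      · by_cases h' : z4 = x23
        · right; right; exact fin _ _ d10 hz1r (h' ▸ hz4r)
        · exfalso
          rcases a3 with rfl | rfl | rfl
          · rcases a4 with rfl | rfl | rfl
            · exact two _ _ _ d2.symm d6.symm d1 hz1r hz3r hz4r
            · exact h' rfl
            · exact two _ _ _ d2.symm d12 d5 hz1r hz3r hz4r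
          · exact h rfl
          · rcases a4 with rfl | rfl | rfl
            · exact two _ _ _ d11 d6.symm d8.symm hz1r hz3r hz4r
            · exact h' rfl
            · exact two _ _ _ d11 d12 d15 hz1r hz3r hz4r
  -- the three complements all occur
  have hRsub : R ⊆ {X \ {x12, x34}, X \ {x13, x24}, X \ {x14, x23}} := by
    intro r hr
    have hrX := hRX r hr
    have e : r = X \ (X \ r) := by rw [sdiff_sdiff_right_self]; exact (inter_eq_right.2 hrX).symm
    simp only [mem_insert, mem_singleton]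
    rcases hpair r hr with h | h | h
    · left; rw [← h]; exact e
    · right; left; rw [← h]; exact e
    · right; right; rw [← h]; exact e
  have hReq : R = {X \ {x12, x34}, X \ {x13, x24}, X \ {x14, x23}} := by
    apply eq_of_subset_of_card_le hRsub
    rw [hR]
    exact card_le_three
  have X12 := s1 e12.1
  have X13 := s1 e13.1
  have X14 := s1 e14.1
  have X23 := s2 e23.1
  have X24 := s2 e24.1
  have X34 := s3 e34.1
  have nm : ∀ z u v : α, z ≠ u → z ≠ v → z ∈ X → z ∈ X \ {u, v} := by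
    intro z u v h1 h2 h3
    rw [mem_sdiff, mem_insert, mem_singleton, not_or]
    exact ⟨h3, h1, h2⟩
  refine ⟨x12, x13, x14, x23, x24, x34, ⟨d1, d2, d3, d4, d5, d6, d7, d8, d9, d10, d11, d12, d13,
    d14, d15, ⟨t1, ht1, e12.1, e13.1, e14.1⟩, ⟨t2, ht2, e12.2, e23.1, e24.1⟩,
    ⟨t3, ht3, e13.2, e23.2, e34.1⟩, ⟨t4, ht4, e14.2, e24.2, e34.2⟩, ?_, ?_, ?_, ?_⟩⟩
  · rintro t ht ⟨ha, hb, hc⟩
    rcases hTeq t ht with rfl | rfl | rfl | rfl
    · exact n123 _ hc e23.1 e23.2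
    · exact n123 _ e13.1 hb e13.2
    · exact n123 _ e12.1 e12.2 ha
    · exact n124 _ e12.1 e12.2 ha
  · exact ⟨X \ {x14, x23}, by rw [hReq]; simp, nm _ _ _ d2 d3 X12, nm _ _ _ d12.symm d14.symm X34,
      nm _ _ _ d6 d7 X13, nm _ _ _ d11.symm d13.symm X24⟩
  · exact ⟨X \ {x13, x24}, by rw [hReq]; simp, nm _ _ _ d1 d4 X12, nm _ _ _ d9.symm d15.symm X34,
      nm _ _ _ d6.symm d11 X14, nm _ _ _ d7.symm d13 X23⟩
  · exact ⟨X \ {x12, x34}, by rw [hReq]; simp, nm _ _ _ d1.symm d9 X13, nm _ _ _ d4.symm d15 X24,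
      nm _ _ _ d2.symm d12 X14, nm _ _ _ d3.symm d14 X23⟩

end Pool.Agent.H111C.Quad
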