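import Mathlib
import Pool.Agent.H111C.Loc
import Pool.Agent.H111C.Quad
import Pool.Agent.H111C.Geo

/-! Six and seven points with all generalised circles of at most four points. -/

namespace Pool.Agent.H111C.Low67

open Finset Pool.Agent.Helper543.Melchior Pool.Agent.Helper543.Blocks
open Pool.Agent.Helper543.PlaneC Pool.Agent.Helper543.Count Pool.Agent.Helper543.Bounds
open Pool.Agent.H111C.Loc Pool.Agent.H111C.Quad Pool.Agent.H111C.Geo

noncomputable section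

lemma block_G {P B : Finset Pt} (hB : B ∈ blocks P) {a b c d : Pt} (ha : a ∈ B) (hb : b ∈ B)
    (hc : c ∈ B) (hd : d ∈ B) (hba : b ≠ a) (hca : c ≠ a) (hcb : c ≠ b) : G a b c d = 0 := by
  have h := block_third hB ha hb hc hba hca hcb
  rw [h, mem_blk] at hd
  exact hd.2

lemma line_cr {P M : Finset Pt} (hM : M ∈ lines P) {a b c : Pt} (ha : a ∈ M) (hb : b ∈ M)
    (hc : c ∈ M) (hab : a ≠ b) : cr a b c = 0 := by
  have h := eq_lineOf hM ha hb hab
  rw [h, mem_lineOf] at hc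
  exact hc.2

theorem low6 {P : Finset Pt} (h3 : 3 ≤ P.card) (hP : ∀ B ∈ blocks P, ∃ x ∈ P, x ∉ B)
    (hn : P.card = 6) (hS : Sm (cfg P h3 hP)) : 7 < cc (cfg P h3 hP) := by
  classical
  by_contra hcon
  push Not at hcon
  have hcP : ∀ b ∈ (cfg P h3 hP).circ, b ⊆ (cfg P h3 hP).P := fun b hb =>
    (cfg P h3 hP).hBP b (mem_sdiff.1 hb).1
  obtain ⟨g1, g2, g3, g4⟩ := global_facts hS
  have hB4 := nk_B' (S := cfg P h3 hP) 4 (by norm_num)
  have n1 := nk_nonneg 3 (cfg P h3 hP).circ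
  have n2 := nk_nonneg 4 (cfg P h3 hP).circ
  have n3 := nk_nonneg 2 (cfg P h3 hP).L
  have n4 := nk_nonneg 3 (cfg P h3 hP).L
  have n5 := nk_nonneg 4 (cfg P h3 hP).L
  have s1 := sum_at (S := cfg P h3 hP) 4 (cfg P h3 hP).circ hcP
  have s2 := sum_at (S := cfg P h3 hP) 4 (cfg P h3 hP).L (cfg P h3 hP).hLP
  have hn' : (cfg P h3 hP).P.card = 6 := hn
  have k1 : 4 * (nk 4 (cfg P h3 hP).circ + nk 4 (cfg P h3 hP).L) ≤ 12 := by
    have : ∑ p ∈ (cfg P h3 hP).P, (nk 4 (at' p (cfg P h3 hP).circ) +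
        nk 4 (at' p (cfg P h3 hP).L)) ≤ ∑ p ∈ (cfg P h3 hP).P, (2 : ℤ) := by
      apply sum_le_sum
      intro p hp
      obtain ⟨f1, f2, f3, f4⟩ := local_facts hS hp
      rw [hn'] at f1
      push_cast at f1
      omega
    rw [sum_add_distrib, s1, s2, sum_const, hn'] at this
    norm_num at this
    linarith
  rw [hn'] at g1 g2
  push_cast at g1 g2
  have hc4 : nk 4 (cfg P h3 hP).circ = 3 := by omega
  have hl3 : nk 3 (cfg P h3 hP).L = 4 := by omega
  rw [nk_eq] at hc4 hl3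
  have hc4' : ((cfg P h3 hP).circ.filter (fun b => b.card = 4)).card = 3 := by exact_mod_cast hc4
  have hl3' : ((cfg P h3 hP).L.filter (fun b => b.card = 3)).card = 4 := by exact_mod_cast hl3
  obtain ⟨x12, x13, x14, x23, x24, x34, C⟩ := quad hn (T := (cfg P h3 hP).L.filter
    (fun b => b.card = 3)) (R := (cfg P h3 hP).circ.filter (fun b => b.card = 4)) hl3'
    (fun t ht => (cfg P h3 hP).hLP t (mem_filter.1 ht).1) (fun t ht => (mem_filter.1 ht).2)
    (fun t ht t' ht' hne => inter_le_one _ (mem_filter.1 ht).1 (mem_filter.1 ht').1 hne) hc4'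
    (fun r hr => hcP r (mem_filter.1 hr).1) (fun r hr => (mem_filter.1 hr).2) (by
      intro r hr t ht
      have ht' := mem_filter.1 ht
      have hr' := mem_filter.1 hr
      apply inter_le_two (cfg P h3 hP) (mem_sdiff.1 hr'.1).1
        ((cfg P h3 hP).hLB t ht'.1 (by omega))
      rintro rfl
      omega)
  have hline : ∀ {t}, t ∈ (cfg P h3 hP).L.filter (fun b => b.card = 3) → t ∈ lines P :=
    fun ht => (mem_filter.1 ht).1
  have hblock : ∀ {t}, t ∈ (cfg P h3 hP).circ.filter (fun b => b.card = 4) → t ∈ blocks P :=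
    fun ht => (mem_sdiff.1 (mem_filter.1 ht).1).1
  obtain ⟨t1, ht1, a1, a2, a3⟩ := C.t1
  obtain ⟨t2, ht2, b1, b2, b3⟩ := C.t2
  obtain ⟨t3, ht3, c1, c2, c3⟩ := C.t3
  obtain ⟨t4, ht4, d1, d2, d3⟩ := C.t4
  obtain ⟨r1, hr1, e1, e2, e3, e4⟩ := C.r1
  obtain ⟨r2, hr2, f1, f2, f3, f4⟩ := C.r2
  obtain ⟨r3, hr3, i1, i2, i3, i4⟩ := C.r3
  have hx23P : x23 ∈ P := line_subset (hline ht2) b2
  refine no_quad (y12 := x12) (y13 := x13) (y14 := x14) (y23 := x23) (y24 := x24) (y34 := x34)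
    ?_ (line_cr (hline ht1) a1 a2 a3 C.d1) (line_cr (hline ht2) b1 b2 b3 C.d3)
    (line_cr (hline ht3) c1 c2 c3 C.d7) (line_cr (hline ht4) d1 d2 d3 C.d11)
    (block_G (hblock hr1) e1 e2 e3 e4 C.d5.symm C.d1.symm C.d9)
    (block_G (hblock hr2) f1 f2 f3 f4 C.d5.symm C.d2.symm C.d12)
    (block_G (hblock hr3) i1 i2 i3 i4 C.d8.symm C.d6.symm C.d11) C.d2.symm C.d6.symm C.d4.symm
    C.d13.symm C.d9.symm C.d14.symm C.d1 C.d3 C.d7
  intro h0
  apply C.nt t1 ht1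
  refine ⟨a1, a2, ?_⟩
  rw [eq_lineOf (hline ht1) a1 a2 C.d1, mem_lineOf]
  exact ⟨hx23P, h0⟩

theorem low7 {P : Finset Pt} (h3 : 3 ≤ P.card) (hP : ∀ B ∈ blocks P, ∃ x ∈ P, x ∉ B)
    (hn : P.card = 7) (hS : Sm (cfg P h3 hP)) : 10 < cc (cfg P h3 hP) := by
  classical
  by_contra hcon
  push Not at hcon
  have hcP : ∀ b ∈ (cfg P h3 hP).circ, b ⊆ (cfg P h3 hP).P := fun b hb =>
    (cfg P h3 hP).hBP b (mem_sdiff.1 hb).1
  obtain ⟨g1, g2, g3, g4⟩ := global_facts hS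
  have hB4 := nk_B' (S := cfg P h3 hP) 4 (by norm_num)
  have n1 := nk_nonneg 3 (cfg P h3 hP).circ
  have n2 := nk_nonneg 4 (cfg P h3 hP).circ
  have n3 := nk_nonneg 2 (cfg P h3 hP).L
  have n4 := nk_nonneg 3 (cfg P h3 hP).L
  have n5 := nk_nonneg 4 (cfg P h3 hP).L
  have s1 := sum_at (S := cfg P h3 hP) 4 (cfg P h3 hP).circ hcP
  have s2 := sum_at (S := cfg P h3 hP) 4 (cfg P h3 hP).L (cfg P h3 hP).hLP
  have hn' : (cfg P h3 hP).P.card = 7 := hn
  have hle : ∀ p ∈ (cfg P h3 hP).P, nk 4 (at' p (cfg P h3 hP).circ) +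
        nk 4 (at' p (cfg P h3 hP).L) ≤ 4 := by
    intro p hp
    obtain ⟨f1, f2, f3, f4⟩ := local_facts hS hp
    rw [hn'] at f1
    push_cast at f1
    omega
  have k1 : 4 * (nk 4 (cfg P h3 hP).circ + nk 4 (cfg P h3 hP).L) ≤ 28 := by
    have : ∑ p ∈ (cfg P h3 hP).P, (nk 4 (at' p (cfg P h3 hP).circ) +
        nk 4 (at' p (cfg P h3 hP).L)) ≤ ∑ p ∈ (cfg P h3 hP).P, (4 : ℤ) := sum_le_sum hle
    rw [sum_add_distrib, s1, s2, sum_const, hn'] at this
    norm_num at this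
    linarith
  rw [hn'] at g1 g2
  push_cast at g1 g2
  have hE : nk 4 (cfg P h3 hP).circ + nk 4 (cfg P h3 hP).L = 7 := by omega
  have hall : ∀ p ∈ (cfg P h3 hP).P, nk 4 (at' p (cfg P h3 hP).circ) +
        nk 4 (at' p (cfg P h3 hP).L) = 4 := by
    by_contra hno
    push Not at hno
    obtain ⟨q, hq, hqne⟩ := hno
    have hlt : ∑ p ∈ (cfg P h3 hP).P, (nk 4 (at' p (cfg P h3 hP).circ) +
        nk 4 (at' p (cfg P h3 hP).L)) < ∑ p ∈ (cfg P h3 hP).P, (4 : ℤ) :=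
      sum_lt_sum hle ⟨q, hq, lt_of_le_of_ne (hle q hq) hqne⟩
    rw [sum_add_distrib, s1, s2, sum_const, hn'] at hlt
    norm_num at hlt
    omega
  obtain ⟨p, hp⟩ : P.Nonempty := card_pos.1 (by omega)
  have hep := hall p hp
  rw [← nk_B 4 (by norm_num) p, nk_eq] at hep
  rw [← nk_B' 4 (by norm_num), nk_eq] at hE
  have hep' : ((at' p (cfg P h3 hP).B).filter (fun b => b.card = 4)).card = 4 := by
    exact_mod_cast hep
  have hE' : ((cfg P h3 hP).B.filter (fun b => b.card = 4)).card = 7 := by exact_mod_cast hE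
  set U := (at' p (cfg P h3 hP).B).filter (fun b => b.card = 4) with hU
  set V := ((cfg P h3 hP).B.filter (fun b => b.card = 4)).filter (fun b => p ∉ b) with hV
  have hUmem : ∀ b, b ∈ U ↔ b ∈ blocks P ∧ p ∈ b ∧ b.card = 4 := by
    intro b
    rw [hU, mem_filter]
    unfold at'
    rw [mem_filter, and_assoc]
    rfl
  have hVmem : ∀ b, b ∈ V ↔ b ∈ blocks P ∧ b.card = 4 ∧ p ∉ b := by
    intro b
    rw [hV, mem_filter, mem_filter, and_assoc]
    rfl
  have hVcard : V.card = 3 := by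
    have h1 := card_filter_add_card_filter_not (s := (cfg P h3 hP).B.filter (fun b => b.card = 4))
      (fun b => p ∉ b)
    have h2 : ((cfg P h3 hP).B.filter (fun b => b.card = 4)).filter (fun b => ¬ p ∉ b) = U := by
      ext b
      rw [mem_filter, mem_filter, hUmem]
      constructor
      · rintro ⟨⟨h, h'⟩, h''⟩; exact ⟨h, not_not.1 h'', h'⟩
      · rintro ⟨h, h', h''⟩; exact ⟨⟨h, h''⟩, not_not.2 h'⟩
    rw [h2, hep', hE', ← hV] at h1
    omega
  have hinj : Set.InjOn (fun b : Finset Pt => b.erase p) (U : Set (Finset Pt)) := by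
    intro b hb b' hb' e
    have h1 := ((hUmem b).1 hb).2.1
    have h2 := ((hUmem b').1 hb').2.1
    simp only at e
    rw [← insert_erase h1, ← insert_erase h2, e]
  have hTcard : (U.image (fun b : Finset Pt => b.erase p)).card = 4 := by
    rw [card_image_of_injOn hinj, hep']
  have hX : (P.erase p).card = 6 := by rw [card_erase_of_mem hp]; omega
  obtain ⟨x12, x13, x14, x23, x24, x34, C⟩ := quad hX
    (T := U.image (fun b : Finset Pt => b.erase p)) (R := V) hTcard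
    (by
      intro t ht
      obtain ⟨b, hb, rfl⟩ := mem_image.1 ht
      exact erase_subset_erase p (block_subset ((hUmem b).1 hb).1))
    (by
      intro t ht
      obtain ⟨b, hb, rfl⟩ := mem_image.1 ht
      rw [card_erase_of_mem ((hUmem b).1 hb).2.1, ((hUmem b).1 hb).2.2])
    (by
      intro t ht t' ht' hne
      obtain ⟨b, hb, rfl⟩ := mem_image.1 ht
      obtain ⟨b', hb', rfl⟩ := mem_image.1 ht'
      have h1 := (hUmem b).1 hb
      have h2 := (hUmem b').1 hb'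
      have h4 : b ≠ b' := by rintro rfl; exact hne rfl
      have h5 := inter_le_two (cfg P h3 hP) h1.1 h2.1 h4
      have h6 : (b.erase p) ∩ (b'.erase p) = (b ∩ b').erase p := by
        ext z; simp only [mem_inter, mem_erase]; tauto
      rw [h6, card_erase_of_mem (mem_inter.2 ⟨h1.2.1, h2.2.1⟩)]
      omega)
    hVcard
    (by
      intro r hr
      have h1 := (hVmem r).1 hr
      intro z hz
      rw [mem_erase]
      refine ⟨?_, block_subset h1.1 hz⟩
      rintro rfl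
      exact h1.2.2 hz)
    (fun r hr => ((hVmem r).1 hr).2.1)
    (by
      intro r hr t ht
      obtain ⟨b, hb, rfl⟩ := mem_image.1 ht
      have h1 := (hUmem b).1 hb
      have h2 := (hVmem r).1 hr
      have h4 : r ≠ b := by rintro rfl; exact h2.2.2 h1.2.1
      have h5 := inter_le_two (cfg P h3 hP) h2.1 h1.1 h4
      have h6 : r ∩ b.erase p ⊆ r ∩ b := by
        intro z hz; rw [mem_inter, mem_erase] at hz; exact mem_inter.2 ⟨hz.1, hz.2.2⟩
      exact (card_le_card h6).trans h5)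
  have hTe : ∀ {t}, t ∈ U.image (fun b : Finset Pt => b.erase p) → ∃ b ∈ blocks P, p ∈ b ∧
      t = b.erase p := by
    intro t ht
    obtain ⟨b, hb, rfl⟩ := mem_image.1 ht
    exact ⟨b, ((hUmem b).1 hb).1, ((hUmem b).1 hb).2.1, rfl⟩
  have hblock : ∀ {t}, t ∈ V → t ∈ blocks P := fun ht => ((hVmem _).1 ht).1
  obtain ⟨t1, ht1, a1, a2, a3⟩ := C.t1
  obtain ⟨t2, ht2, b1, b2, b3⟩ := C.t2
  obtain ⟨t3, ht3, c1, c2, c3⟩ := C.t3
  obtain ⟨t4, ht4, d1, d2, d3⟩ := C.t4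
  obtain ⟨r1, hr1, e1, e2, e3, e4⟩ := C.r1
  obtain ⟨r2, hr2, f1, f2, f3, f4⟩ := C.r2
  obtain ⟨r3, hr3, i1, i2, i3, i4⟩ := C.r3
  have hne : ∀ {t x}, t ∈ U.image (fun b : Finset Pt => b.erase p) → x ∈ t → x ≠ p := by
    intro t x ht hx
    obtain ⟨b, _, _, rfl⟩ := hTe ht
    exact (mem_erase.1 hx).1
  have p12 := hne ht1 a1
  have p13 := hne ht1 a2
  have p14 := hne ht1 a3
  have p23 := hne ht2 b2
  have p24 := hne ht2 b3
  have p34 := hne ht3 c3
  have col : ∀ {t x y z}, t ∈ U.image (fun b : Finset Pt => b.erase p) → x ∈ t → y ∈ t → z ∈ t →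
      x ≠ y → cr (iv p x) (iv p y) (iv p z) = 0 := by
    intro t x y z ht hx hy hz hxy
    have hxp := hne ht hx
    have hyp := hne ht hy
    have hzp := hne ht hz
    obtain ⟨b, hb, hpb, rfl⟩ := hTe ht
    rw [cr_iv_eq_zero hxp hyp hzp]
    exact block_G hb hpb (mem_erase.1 hx).2 (mem_erase.1 hy).2 (mem_erase.1 hz).2 hxp hyp hxy.symm
  have dist : ∀ {x y}, x ≠ p → y ≠ p → x ≠ y → iv p x ≠ iv p y := fun hx hy hxy e =>
    hxy (iv_inj hx hy e)
  refine no_quad (y12 := iv p x12) (y13 := iv p x13) (y14 := iv p x14) (y23 := iv p x23)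
    (y24 := iv p x24) (y34 := iv p x34)
    ?_ (col ht1 a1 a2 a3 C.d1) (col ht2 b1 b2 b3 C.d3)
    (col ht3 c1 c2 c3 C.d7) (col ht4 d1 d2 d3 C.d11)
    (G_iv p12 p34 p13 p24 (block_G (hblock hr1) e1 e2 e3 e4 C.d5.symm C.d1.symm C.d9))
    (G_iv p12 p34 p14 p23 (block_G (hblock hr2) f1 f2 f3 f4 C.d5.symm C.d2.symm C.d12))
    (G_iv p13 p24 p14 p23 (block_G (hblock hr3) i1 i2 i3 i4 C.d8.symm C.d6.symm C.d11))
    (dist p14 p12 C.d2.symm) (dist p14 p13 C.d6.symm) (dist p24 p12 C.d4.symm)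
    (dist p24 p23 C.d13.symm) (dist p34 p13 C.d9.symm) (dist p34 p23 C.d14.symm)
    (dist p12 p13 C.d1) (dist p12 p23 C.d3) (dist p13 p23 C.d7)
  intro h0
  rw [cr_iv_eq_zero p12 p13 p23] at h0
  apply C.nt t1 ht1
  refine ⟨a1, a2, ?_⟩
  obtain ⟨bb, hbb, hpbb, rfl⟩ := hTe ht1
  rw [mem_erase]
  refine ⟨p23, ?_⟩
  rw [block_third hbb hpbb (mem_erase.1 a1).2 (mem_erase.1 a2).2 p12 p13 C.d1.symm, mem_blk]
  obtain ⟨b2', hb2', _, rfl⟩ := hTe ht2
  exact ⟨block_subset hb2' (mem_erase.1 b2).2, h0⟩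

end

end Pool.Agent.H111C.Low67
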