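import Mathlib
import Pool.Agent.H111C.Loc

/-! Eight points with all generalised circles of at most four points. -/

namespace Pool.Agent.H111C.Low8

open Finset Pool.Agent.Helper543.Count Pool.Agent.Helper543.Bounds Pool.Agent.Helper543.Small
open Pool.Agent.H111C.Low Pool.Agent.H111C.Loc

set_option linter.unusedSectionVars false

variable {α : Type} [DecidableEq α] {S : Cfg α}

/-- at most two lines with four points -/
theorem four_lines (hn : S.P.card = 8) : nk 4 S.L ≤ 2 := by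
  rw [nk_eq]
  by_contra hcon
  have h3 : 2 < (S.L.filter (fun b => b.card = 4)).card := by
    by_contra h; apply hcon; push Not at h; exact_mod_cast h
  obtain ⟨a, b, c, ha, hb, hc, hab, hac, hbc⟩ := two_lt_card_iff.1 h3
  rw [mem_filter] at ha hb hc
  have i1 := inter_le_one S ha.1 hb.1 hab
  have i2 := inter_le_one S ha.1 hc.1 hac
  have i3 := inter_le_one S hb.1 hc.1 hbc
  have u1 := card_union_add_card_inter a b
  have u2 := card_union_add_card_inter (a ∪ b) c
  have u3 : ((a ∪ b) ∩ c).card ≤ (a ∩ c).card + (b ∩ c).card := by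
    rw [union_inter_distrib_right]; exact card_union_le _ _
  have u4 : ((a ∪ b) ∪ c).card ≤ S.P.card :=
    card_le_card (union_subset (union_subset (S.hLP a ha.1) (S.hLP b hb.1)) (S.hLP c hc.1))
  omega

/-- number of blocks of size `k` through `p` and `x` -/
def t2 (S : Cfg α) (k : ℕ) (p x : α) : ℤ := nk k (at' x (at' p S.B))

theorem t2_pair (hS : Sm S) {p x : α} (hp : p ∈ S.P) (hx : x ∈ S.P) (hpx : p ≠ x) :
    t2 S 3 p x + 2 * t2 S 4 p x = S.P.card - 2 := by
  have h := pair_count S hp hx hpx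
  have e : S.B.filter (fun b => p ∈ b ∧ x ∈ b) = at' x (at' p S.B) := by
    unfold at'; rw [filter_filter]
  rw [e] at h
  have hr : ∀ b ∈ at' x (at' p S.B), 3 ≤ b.card ∧ b.card ≤ 4 := fun b hb => by
    unfold at' at hb
    rw [mem_filter, mem_filter] at hb
    exact ⟨S.hB3 b hb.1.1, hS.hB b hb.1.1⟩
  have f := sum34 _ hr (fun k => k - 2)
  rw [f] at h
  unfold t2
  linarith

theorem t2_sum {p : α} (hp : p ∈ S.P) (k : ℕ) :
    ∑ x ∈ S.P.erase p, t2 S k p x = (k - 1) * nk k (at' p S.B) := by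
  unfold t2 nk
  have h := sum_point (at' p S.B) (S.P.erase p) (ic k)
  unfold at' at *
  rw [h, mul_sum]
  refine sum_congr rfl fun b hb => ?_
  rw [mem_filter] at hb
  have e : b ∩ S.P.erase p = b.erase p := by
    ext z
    simp only [mem_inter, mem_erase]
    constructor
    · rintro ⟨h1, h2, _⟩; exact ⟨h2, h1⟩
    · rintro ⟨h1, h2⟩; exact ⟨h2, h1, S.hBP b hb.1 h2⟩
  have hc := card_erase_of_mem hb.2
  have hpos : 0 < b.card := card_pos.2 ⟨p, hb.2⟩
  rw [e]
  unfold ic
  by_cases h : b.card = k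
  · rw [if_pos h]
    have : ((b.erase p).card : ℤ) = k - 1 := by omega
    rw [this]
  · rw [if_neg h]; simp

/-- lines with three points are pairwise disjoint -/
theorem three_disjoint (hS : Sm S) (hn : S.P.card = 8) {p : α} (hp : p ∈ S.P)
    (he : nk 4 (at' p S.circ) + nk 4 (at' p S.L) = 6) {l l' : Finset α} (hl : l ∈ S.L)
    (hl' : l' ∈ S.L) (hne : l ≠ l') (h3 : l.card = 3) (h3' : l'.card = 3) (hpl : p ∈ l)
    (hpl' : p ∈ l') : False := by
  obtain ⟨f1, f2, f3, f4⟩ := local_facts hS hp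
  have g3 := nk_B (S := S) 3 (by norm_num) p
  have hsum := t2_sum (S := S) hp 3
  rw [hn] at f1
  have hN : nk 3 (at' p S.B) = 3 := by push_cast at f1; linarith
  rw [hN] at hsum
  push_cast at hsum
  -- the four other points of the two lines
  have hI := inter_le_one S hl hl' hne
  have hU : ((l ∪ l').erase p).card = 4 := by
    have h1 := card_union_add_card_inter l l'
    have h2 : 1 ≤ (l ∩ l').card := card_pos.2 ⟨p, mem_inter.2 ⟨hpl, hpl'⟩⟩
    rw [card_erase_of_mem (mem_union_left _ hpl)]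
    omega
  have hsub : (l ∪ l').erase p ⊆ S.P.erase p := by
    intro z hz
    rw [mem_erase, mem_union] at hz
    rw [mem_erase]
    refine ⟨hz.1, ?_⟩
    rcases hz.2 with h | h
    · exact S.hLP l hl h
    · exact S.hLP l' hl' h
  have hge : ∀ x ∈ (l ∪ l').erase p, 2 ≤ t2 S 3 p x := by
    intro x hx
    rw [mem_erase, mem_union] at hx
    have hxP : x ∈ S.P := (mem_erase.1 (hsub (mem_erase.2 ⟨hx.1, mem_union.2 hx.2⟩))).2
    have h1 := t2_pair hS hp hxP hx.1.symm
    have h2 : 1 ≤ t2 S 3 p x := by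
      unfold t2
      rw [nk_eq]
      have : 0 < ((at' x (at' p S.B)).filter (fun b => b.card = 3)).card := by
        rw [card_pos]
        rcases hx.2 with h | h
        · refine ⟨l, ?_⟩
          unfold at'
          rw [mem_filter, mem_filter, mem_filter]
          exact ⟨⟨⟨S.hLB l hl (by omega), hpl⟩, h⟩, h3⟩
        · refine ⟨l', ?_⟩
          unfold at'
          rw [mem_filter, mem_filter, mem_filter]
          exact ⟨⟨⟨S.hLB l' hl' (by omega), hpl'⟩, h⟩, h3'⟩
      exact_mod_cast this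
    rw [hn] at h1
    push_cast at h1
    omega
  have hnn : ∀ x ∈ S.P.erase p, 0 ≤ t2 S 3 p x := fun x _ => by unfold t2; exact nk_nonneg _ _
  have hle : ∑ x ∈ (l ∪ l').erase p, t2 S 3 p x ≤ ∑ x ∈ S.P.erase p, t2 S 3 p x :=
    sum_le_sum_of_subset_of_nonneg hsub (fun x hx _ => hnn x hx)
  have hge2 : ∑ x ∈ (l ∪ l').erase p, (2 : ℤ) ≤ ∑ x ∈ (l ∪ l').erase p, t2 S 3 p x :=
    sum_le_sum hge
  rw [sum_const, hU] at hge2
  norm_num at hge2
  linarith

theorem e_le (hS : Sm S) (hn : S.P.card = 8) {p : α} (hp : p ∈ S.P) :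
    nk 4 (at' p S.circ) + nk 4 (at' p S.L) ≤ 6 := by
  obtain ⟨f1, f2, f3, f4⟩ := local_facts hS hp
  rw [hn] at f1
  push_cast at f1
  linarith

theorem comb_le (hS : Sm S) (hn : S.P.card = 8) {p : α} (hp : p ∈ S.P) :
    nk 4 (at' p S.circ) + nk 3 (at' p S.L) + 2 * nk 4 (at' p S.L) ≤ 8 := by
  obtain ⟨f1, f2, f3, f4⟩ := local_facts hS hp
  rw [hn] at f1 f2
  push_cast at f1 f2
  have n1 := nk_nonneg 3 (at' p S.circ)
  have n2 := nk_nonneg 4 (at' p S.circ)
  have n3 := nk_nonneg 2 (at' p S.L)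
  have n4 := nk_nonneg 3 (at' p S.L)
  have n5 := nk_nonneg 4 (at' p S.L)
  omega

theorem low8 (hS : Sm S) (hn : S.P.card = 8) : 16 < cc S := by
  by_contra hcon
  push Not at hcon
  obtain ⟨g1, g2, g3, g4⟩ := global_facts hS
  have hB4 := nk_B' (S := S) 4 (by norm_num)
  have n1 := nk_nonneg 3 S.circ
  have n2 := nk_nonneg 4 S.circ
  have n3 := nk_nonneg 2 S.L
  have n4 := nk_nonneg 3 S.L
  have n5 := nk_nonneg 4 S.L
  have hcP : ∀ b ∈ S.circ, b ⊆ S.P := fun b hb => S.hBP b (mem_sdiff.1 hb).1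
  have s1 := sum_at (S := S) 4 S.circ hcP
  have s2 := sum_at (S := S) 4 S.L S.hLP
  have s3 := sum_at (S := S) 3 S.L S.hLP
  have k1 : 4 * (nk 4 S.circ + nk 4 S.L) ≤ 48 := by
    have : ∑ p ∈ S.P, (nk 4 (at' p S.circ) + nk 4 (at' p S.L)) ≤ ∑ p ∈ S.P, (6 : ℤ) :=
      sum_le_sum fun p hp => e_le hS hn hp
    rw [sum_add_distrib, s1, s2, sum_const, hn] at this
    norm_num at this
    linarith
  have k2 : 4 * nk 4 S.circ + 3 * nk 3 S.L + 8 * nk 4 S.L ≤ 64 := by
    have : ∑ p ∈ S.P, (nk 4 (at' p S.circ) + nk 3 (at' p S.L) + 2 * nk 4 (at' p S.L)) ≤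
        ∑ p ∈ S.P, (8 : ℤ) := sum_le_sum fun p hp => comb_le hS hn hp
    rw [sum_add_distrib, sum_add_distrib, ← mul_sum, s1, s2, s3, sum_const, hn] at this
    norm_num at this
    linarith
  rw [hn] at g1 g2
  push_cast at g1 g2
  have hE : nk 4 S.circ + nk 4 S.L = 12 := by omega
  have hlam : 4 ≤ nk 3 S.L + nk 4 S.L := by omega
  -- every point is on six blocks of size four
  have hall : ∀ p ∈ S.P, nk 4 (at' p S.circ) + nk 4 (at' p S.L) = 6 := by
    by_contra hno
    push Not at hno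
    obtain ⟨q, hq, hqne⟩ := hno
    have hlt : ∑ p ∈ S.P, (nk 4 (at' p S.circ) + nk 4 (at' p S.L)) < ∑ p ∈ S.P, (6 : ℤ) :=
      sum_lt_sum (fun p hp => e_le hS hn hp) ⟨q, hq, lt_of_le_of_ne (e_le hS hn hq) hqne⟩
    rw [sum_add_distrib, s1, s2, sum_const, hn] at hlt
    norm_num at hlt
    omega
  have hdis : ∀ l ∈ S.L.filter (fun b => b.card = 3), ∀ l' ∈ S.L.filter (fun b => b.card = 3),
      l ≠ l' → Disjoint l l' := by
    intro l hl l' hl' hne
    rw [mem_filter] at hl hl'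
    rw [disjoint_left]
    intro p hp hp'
    have hpP := S.hLP l hl.1 hp
    exact three_disjoint hS hn hpP (hall p hpP) hl.1 hl'.1 hne hl.2 hl'.2 hp hp'
  have h3le : 3 * (S.L.filter (fun b => b.card = 3)).card ≤ 8 := by
    have h1 : ((S.L.filter (fun b => b.card = 3)).biUnion id).card =
        ∑ b ∈ S.L.filter (fun b => b.card = 3), b.card := card_biUnion hdis
    have h2 : (S.L.filter (fun b => b.card = 3)).biUnion id ⊆ S.P := by
      intro x hx
      rw [mem_biUnion] at hx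
      obtain ⟨b, hb, hxb⟩ := hx
      exact S.hLP b (mem_filter.1 hb).1 hxb
    have h3 := card_le_card h2
    rw [h1, sum_congr rfl (fun b hb => (mem_filter.1 hb).2), sum_const, smul_eq_mul, hn] at h3
    omega
  have h4le := four_lines (S := S) hn
  have e3 := nk_eq 3 S.L
  have e4 := nk_eq 4 S.L
  have hL3 : (S.L.filter (fun b => b.card = 3)).card = 2 := by omega
  have hL4 : (S.L.filter (fun b => b.card = 4)).card = 2 := by omega
  obtain ⟨a, b, hab, hfab⟩ := card_eq_two.1 hL3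
  obtain ⟨c, d, hcd, hfcd⟩ := card_eq_two.1 hL4
  have ha : a ∈ S.L.filter (fun b => b.card = 3) := by rw [hfab]; simp
  have hb : b ∈ S.L.filter (fun b => b.card = 3) := by rw [hfab]; simp
  have hc : c ∈ S.L.filter (fun b => b.card = 4) := by rw [hfcd]; simp
  have hd : d ∈ S.L.filter (fun b => b.card = 4) := by rw [hfcd]; simp
  have hdab := hdis a ha b hb hab
  rw [mem_filter] at ha hb hc hd
  have hW : ((S.P \ (a ∪ b))).card = 2 := by
    rw [card_sdiff_of_subset (union_subset (S.hLP a ha.1) (S.hLP b hb.1)),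
      card_union_of_disjoint hdab, ha.2, hb.2, hn]
  have key : ∀ x ∈ S.L, x.card = 4 → S.P \ (a ∪ b) ⊆ x := by
    intro x hx hx4
    have hxa : x ≠ a := by rintro rfl; omega
    have hxb : x ≠ b := by rintro rfl; omega
    have i1 := inter_le_one S hx ha.1 hxa
    have i2 := inter_le_one S hx hb.1 hxb
    have h1 : x ⊆ (x ∩ (S.P \ (a ∪ b))) ∪ ((x ∩ a) ∪ (x ∩ b)) := by
      intro z hz
      have hzP := S.hLP x hx hz
      by_cases hza : z ∈ a
      · simp [hz, hza]
      · by_cases hzb : z ∈ b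
        · simp [hz, hzb]
        · simp [hz, hza, hzb, hzP]
    have h2 := card_le_card h1
    have h3 := card_union_le (x ∩ (S.P \ (a ∪ b))) ((x ∩ a) ∪ (x ∩ b))
    have h4 := card_union_le (x ∩ a) (x ∩ b)
    have h5 : (S.P \ (a ∪ b)).card ≤ (x ∩ (S.P \ (a ∪ b))).card := by omega
    have h6 := eq_of_subset_of_card_le (inter_subset_right : x ∩ (S.P \ (a ∪ b)) ⊆ _) h5
    intro z hz
    rw [← h6] at hz
    exact (mem_inter.1 hz).1
  have k3 := key c hc.1 hc.2
  have k4 := key d hd.1 hd.2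
  have k5 := card_le_card (subset_inter k3 k4)
  have k6 := inter_le_one S hc.1 hd.1 hcd
  omega

end Pool.Agent.H111C.Low8
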