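import Mathlib
import Pool.Agent.Helper543.PlaneC

/-! Configurations with few circles. -/

namespace Pool.Agent.H111C.Upper

open Finset Pool.Agent.Helper543.Melchior Pool.Agent.Helper543.Blocks
open Pool.Agent.Helper543.PlaneC

noncomputable section

/-- every finite set of coordinate pairs comes from a set of points of the plane -/
theorem exists_plane (Q : Finset Pt) (h3 : 3 ≤ Q.card) (hQ : ∀ B ∈ blocks Q, ∃ x ∈ Q, x ∉ B) :
    ∃ P : Finset Plane, P.card = Q.card ∧ Admissible (P : Set Plane) ∧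
      (Circles (P : Set Plane)).ncard = (blocks Q \ lines Q).card := by
  classical
  have hinj : Function.Injective psi := fun u v e => by rw [← phi_psi u, e, phi_psi]
  have himg : (Q.image psi).image phi = Q := by
    rw [image_image]
    have : phi ∘ psi = id := funext phi_psi
    rw [this, image_id]
  have hcard : (Q.image psi).card = Q.card := card_image_of_injective _ hinj
  refine ⟨Q.image psi, hcard, ?_, ?_⟩
  · rw [admissible_iff _ (by omega), himg]
    exact hQ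
  · rw [ncard_circles, himg]

/-! ### Explicit integer configurations -/

/-- cast of an integer point -/
def cst (a : ℤ × ℤ) : Pt := ((a.1 : ℝ), (a.2 : ℝ))

lemma cst_inj : Function.Injective cst := by
  intro a b h
  simp only [cst, Prod.mk.injEq, Int.cast_inj] at h
  exact Prod.ext h.1 h.2

/-- integer version of `cr` -/
def crZ (a b c : ℤ × ℤ) : ℤ := (b.1 - a.1) * (c.2 - a.2) - (b.2 - a.2) * (c.1 - a.1)

/-- integer version of `nrm` -/
def nZ (p a : ℤ × ℤ) : ℤ := (a.1 - p.1) ^ 2 + (a.2 - p.2) ^ 2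

/-- integer version of `G` -/
def GZ (p a b c : ℤ × ℤ) : ℤ :=
  (a.1 - p.1) * ((b.2 - p.2) * nZ p c - (c.2 - p.2) * nZ p b)
  - (a.2 - p.2) * ((b.1 - p.1) * nZ p c - (c.1 - p.1) * nZ p b)
  + nZ p a * ((b.1 - p.1) * (c.2 - p.2) - (b.2 - p.2) * (c.1 - p.1))

lemma cr_cst (a b c : ℤ × ℤ) : cr (cst a) (cst b) (cst c) = (crZ a b c : ℝ) := by
  simp only [cr, cst, crZ]; push_cast; ring

lemma G_cst (p a b c : ℤ × ℤ) : G (cst p) (cst a) (cst b) (cst c) = (GZ p a b c : ℝ) := by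
  simp only [G, cst, GZ, nrm, nZ]; push_cast; ring

theorem explicit {n : ℕ} (f : Fin n → ℤ × ℤ) (hn : 3 ≤ n) (hf : Function.Injective f)
    (LB : Finset (Finset (Fin n)))
    (h : ∀ i j k : Fin n, i ≠ j → i ≠ k → j ≠ k → crZ (f i) (f j) (f k) ≠ 0 →
      ∃ b ∈ LB, ∀ l, l ∈ b ↔ GZ (f i) (f j) (f k) (f l) = 0)
    (hadm : ∀ i j k : Fin n, i ≠ j → i ≠ k → j ≠ k → ∃ l, GZ (f i) (f j) (f k) (f l) ≠ 0) :
    ∃ P : Finset Plane, P.card = n ∧ Admissible (P : Set Plane) ∧
      (Circles (P : Set Plane)).ncard ≤ LB.card := by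
  classical
  set Q : Finset Pt := univ.image (fun i => cst (f i)) with hQ
  have hinj : Function.Injective (fun i => cst (f i)) := cst_inj.comp hf
  have hcard : Q.card = n := by
    rw [hQ, card_image_of_injective _ hinj, card_univ, Fintype.card_fin]
  have hmem : ∀ i, cst (f i) ∈ Q := fun i => mem_image_of_mem _ (mem_univ i)
  obtain ⟨P, h1, h2, h3⟩ := exists_plane Q (by omega) (by
    intro B hB
    obtain ⟨a, ha, b, hb, c, hc, hab, hac, hbc, rfl⟩ := mem_blocks.1 hB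
    obtain ⟨i, _, rfl⟩ := mem_image.1 ha
    obtain ⟨j, _, rfl⟩ := mem_image.1 hb
    obtain ⟨k, _, rfl⟩ := mem_image.1 hc
    obtain ⟨l, hl⟩ := hadm i j k (fun e => hab (by rw [e])) (fun e => hac (by rw [e]))
      (fun e => hbc (by rw [e]))
    refine ⟨cst (f l), hmem l, ?_⟩
    rw [mem_blk, G_cst]
    rintro ⟨_, h0⟩
    exact hl (by exact_mod_cast h0))
  refine ⟨P, by rw [h1, hcard], h2, ?_⟩
  rw [h3]
  have hsub : blocks Q \ lines Q ⊆ LB.image (fun b => b.image (fun i => cst (f i))) := by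
    intro B hB
    rw [mem_sdiff] at hB
    obtain ⟨hB, hBL⟩ := hB
    obtain ⟨a, ha, b, hb, c, hc, hab, hac, hbc, rfl⟩ := mem_blocks.1 hB
    have hcr : cr a b c ≠ 0 := fun h0 =>
      hBL (block_mem_lines hB (blk_mem1 ha) (blk_mem2 hb) (blk_mem3 hc) hab hac.symm hbc.symm h0)
    obtain ⟨i, _, rfl⟩ := mem_image.1 ha
    obtain ⟨j, _, rfl⟩ := mem_image.1 hb
    obtain ⟨k, _, rfl⟩ := mem_image.1 hc
    rw [cr_cst] at hcr
    obtain ⟨b, hb, hbl⟩ := h i j k (fun e => hab (by rw [e])) (fun e => hac (by rw [e]))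
      (fun e => hbc (by rw [e])) (by exact_mod_cast hcr)
    rw [mem_image]
    refine ⟨b, hb, ?_⟩
    ext x
    rw [mem_image, mem_blk]
    constructor
    · rintro ⟨l, hl, rfl⟩
      refine ⟨hmem l, ?_⟩
      rw [G_cst, (hbl l).1 hl]; simp
    · rintro ⟨hx, hG⟩
      obtain ⟨l, _, rfl⟩ := mem_image.1 hx
      rw [G_cst] at hG
      exact ⟨l, (hbl l).2 (by exact_mod_cast hG), rfl⟩
  exact (card_le_card hsub).trans card_image_le

/-- six points with eight circles: a triangle and the feet of its altitudes -/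
def f6 : Fin 6 → ℤ × ℤ := ![(0, 2), (-4, 0), (6, 0), (0, 0), (-3, 3), (4, 4)]

/-- seven points with eleven circles: the same with the orthocentre -/
def f7 : Fin 7 → ℤ × ℤ := ![(0, 2), (-4, 0), (6, 0), (0, 0), (-3, 3), (4, 4), (0, 12)]

/-- eight points with seventeen circles -/
def f8 : Fin 8 → ℤ × ℤ :=
  ![(5, 0), (0, 5), (-1, 2), (-5, 0), (0, -5), (5, -10), (2, -1), (-10, 5)]

theorem six : ∃ P : Finset Plane, P.card = 6 ∧ Admissible (P : Set Plane) ∧
    (Circles (P : Set Plane)).ncard ≤ 8 := by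
  have := explicit f6 (by norm_num) (by decide +kernel)
    {{0, 1, 2}, {0, 1, 3, 4}, {0, 2, 3, 5}, {0, 4, 5}, {1, 2, 4, 5}, {1, 3, 5}, {2, 3, 4},
      {3, 4, 5}} (by decide +kernel) (by decide +kernel)
  exact this

theorem seven : ∃ P : Finset Plane, P.card = 7 ∧ Admissible (P : Set Plane) ∧
    (Circles (P : Set Plane)).ncard ≤ 11 := by
  have := explicit f7 (by norm_num) (by decide +kernel)
    {{0, 1, 2}, {0, 1, 3, 4}, {0, 1, 6}, {0, 2, 3, 5}, {0, 2, 6}, {0, 4, 5, 6}, {1, 2, 4, 5},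
      {1, 2, 6}, {1, 3, 5, 6}, {2, 3, 4, 6}, {3, 4, 5}} (by decide +kernel) (by decide +kernel)
  exact this

theorem eight : ∃ P : Finset Plane, P.card = 8 ∧ Admissible (P : Set Plane) ∧
    (Circles (P : Set Plane)).ncard ≤ 17 := by
  have := explicit f8 (by norm_num) (by decide +kernel)
    {{0, 1, 2, 6}, {0, 1, 3, 4}, {0, 1, 5, 7}, {0, 2, 3, 5}, {0, 2, 4}, {0, 3, 6, 7},
      {0, 4, 5, 6}, {0, 4, 7}, {1, 2, 3, 7}, {1, 2, 4, 5}, {1, 3, 5}, {1, 3, 6}, {1, 4, 6, 7},
      {2, 3, 4, 6}, {2, 4, 7}, {2, 5, 6, 7}, {3, 5, 6}} (by decide +kernel) (by decide +kernel)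
  exact this

end

end Pool.Agent.H111C.Upper
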