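import Mathlib
import Pool.Agent.H111C.Upper

/-! The centre of a circle together with antipodal pairs on the circle. -/

namespace Pool.Agent.H111C.UpperF

open Finset Pool.Agent.Helper543.Melchior Pool.Agent.Helper543.Blocks
open Pool.Agent.Helper543.PlaneC Pool.Agent.H111C.Upper

noncomputable section

/-- a point of the unit circle in the open first quadrant -/
def u (i : ℕ) : Pt :=
  ((((i : ℝ) + 2) ^ 2 - 1) / (((i : ℝ) + 2) ^ 2 + 1), 2 * ((i : ℝ) + 2) / (((i : ℝ) + 2) ^ 2 + 1))

lemma u1_pos (i : ℕ) : 0 < (u i).1 := by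
  simp only [u]
  apply div_pos
  · nlinarith [(Nat.cast_nonneg i : (0 : ℝ) ≤ i)]
  · positivity

lemma u_circle (i : ℕ) : (u i).1 ^ 2 + (u i).2 ^ 2 = 1 := by
  simp only [u]
  have : ((i : ℝ) + 2) ^ 2 + 1 ≠ 0 := by positivity
  field_simp
  ring

lemma u_inj {i j : ℕ} (h : (u i).1 = (u j).1) : i = j := by
  simp only [u] at h
  have h1 : ((i : ℝ) + 2) ^ 2 + 1 ≠ 0 := by positivity
  have h2 : ((j : ℝ) + 2) ^ 2 + 1 ≠ 0 := by positivity
  rw [div_eq_div_iff h1 h2] at h
  have h3 : ((i : ℝ) - j) * ((i : ℝ) + j + 4) = 0 := by linarith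
  have h4 : (i : ℝ) + j + 4 ≠ 0 := by positivity
  rcases mul_eq_zero.1 h3 with h5 | h5
  · exact_mod_cast (by linarith : (i : ℝ) = j)
  · exact absurd h5 h4

/-- the points of the circle -/
def f (j : ℕ) : Pt := if j % 2 = 0 then u (j / 2) else -u (j / 2)

lemma f_circle (j : ℕ) : (f j).1 ^ 2 + (f j).2 ^ 2 = 1 := by
  unfold f
  split_ifs
  · exact u_circle _
  · simp only [Prod.fst_neg, Prod.snd_neg, neg_sq]; exact u_circle _

lemma f_inj : Function.Injective f := by
  intro i j h
  have h1 := congrArg Prod.fst h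
  unfold f at h1
  by_cases hi : i % 2 = 0 <;> by_cases hj : j % 2 = 0
  · rw [if_pos hi, if_pos hj] at h1
    have := u_inj h1; omega
  · rw [if_pos hi, if_neg hj, Prod.fst_neg] at h1
    have := u1_pos (i / 2); have := u1_pos (j / 2); linarith
  · rw [if_neg hi, if_pos hj, Prod.fst_neg] at h1
    have := u1_pos (i / 2); have := u1_pos (j / 2); linarith
  · rw [if_neg hi, if_neg hj, Prod.fst_neg, Prod.fst_neg] at h1
    have := u_inj (neg_injective h1); omega

lemma f_on (j : ℕ) : On 0 0 1 (f j) := by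
  have := f_circle j
  simp only [On]; linarith

lemma not_on_zero : ¬ On 0 0 1 (0 : Pt) := by
  simp [On]

lemma f_ne_zero (j : ℕ) : f j ≠ 0 := by
  intro h
  have := f_on j
  rw [h] at this
  exact not_on_zero this

/-- the points on the circle -/
def U (k : ℕ) : Finset Pt := (range k).image f

/-- the configuration -/
def Q (k : ℕ) : Finset Pt := insert 0 (U k)

lemma mem_U {k : ℕ} {x : Pt} : x ∈ U k ↔ ∃ j < k, f j = x := by
  simp [U]

lemma U_on {k : ℕ} {x : Pt} (hx : x ∈ U k) : On 0 0 1 x := by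
  obtain ⟨j, _, rfl⟩ := mem_U.1 hx
  exact f_on j

lemma zero_notMem (k : ℕ) : (0 : Pt) ∉ U k := fun h => not_on_zero (U_on h)

lemma card_Q (k : ℕ) : (Q k).card = k + 1 := by
  rw [Q, card_insert_of_notMem (zero_notMem k), U, card_image_of_injective _ f_inj, card_range]

/-- a block with three points on the circle is the circle -/
lemma blk_circle {k : ℕ} {B : Finset Pt} (hB : B ∈ blocks (Q k)) {a b c : Pt} (ha : a ∈ U k)
    (hb : b ∈ U k) (hc : c ∈ U k) (haB : a ∈ B) (hbB : b ∈ B) (hcB : c ∈ B) (hab : a ≠ b)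
    (hac : a ≠ c) (hbc : b ≠ c) : B = U k := by
  have hcr := cr_ne_of_On (U_on ha) (U_on hb) (U_on hc) hab hac hbc
  rw [block_third hB haB hbB hcB hab.symm hac.symm hbc.symm]
  ext x
  rw [mem_blk, Q, mem_insert]
  constructor
  · rintro ⟨hx, hG⟩
    rcases hx with rfl | hx
    · exact absurd (On_of_G hcr (U_on ha) (U_on hb) (U_on hc) hG) not_on_zero
    · exact hx
  · intro hx
    exact ⟨Or.inr hx, G_of_On (U_on ha) (U_on hb) (U_on hc) (U_on hx)⟩

/-- index pairs which are not antipodal -/
def F (k : ℕ) : Finset (Σ _ : ℕ, ℕ) :=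
  (range k).sigma (fun j => (range j).filter (fun i => ¬ (i % 2 = 0 ∧ j = i + 1)))

lemma card_fib (j : ℕ) : ((range j).filter (fun i => ¬ (i % 2 = 0 ∧ j = i + 1))).card ≤
    if j % 2 = 0 then j else j - 1 := by
  split_ifs with h
  · exact (card_filter_le _ _).trans (by rw [card_range])
  · have hsub : (range j).filter (fun i => ¬ (i % 2 = 0 ∧ j = i + 1)) ⊆ range (j - 1) := by
      intro i hi
      rw [mem_filter, mem_range] at hi
      rw [mem_range]
      by_contra hcon
      apply hi.2
      omega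
    exact (card_le_card hsub).trans (by rw [card_range])

lemma sum_fib (k : ℕ) : ∑ j ∈ range (k + 1), (if j % 2 = 0 then j else j - 1) = k ^ 2 / 2 := by
  induction k with
  | zero => simp
  | succ k ih =>
    rw [sum_range_succ, ih]
    obtain ⟨a, ha | ha⟩ : ∃ a, k = 2 * a ∨ k = 2 * a + 1 := ⟨k / 2, by omega⟩
    · subst ha
      rw [if_neg (by omega)]
      have e1 : (2 * a) ^ 2 = 2 * (2 * a * a) := by ring
      have e2 : (2 * a + 1) ^ 2 = 2 * (2 * a * a + 2 * a) + 1 := by ring
      rw [e1, e2]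
      omega
    · subst ha
      rw [if_pos (by omega)]
      have e1 : (2 * a + 1) ^ 2 = 2 * (2 * a * a + 2 * a) + 1 := by ring
      have e2 : (2 * a + 1 + 1) ^ 2 = 2 * (2 * a * a + 4 * a + 2) := by ring
      rw [e1, e2]
      omega

lemma card_F (k : ℕ) : (F (k + 1)).card ≤ k ^ 2 / 2 := by
  rw [F, card_sigma, ← sum_fib]
  exact sum_le_sum fun j _ => card_fib j

lemma blocks_subset (k : ℕ) : blocks (Q k) \ lines (Q k) ⊆
    insert (U k) ((F k).image (fun q => ({0, f q.1, f q.2} : Finset Pt))) := by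
  intro B hB
  rw [mem_sdiff] at hB
  obtain ⟨hB, hBL⟩ := hB
  have hBQ := block_subset hB
  rw [mem_insert]
  by_cases h0 : (0 : Pt) ∈ B
  · right
    obtain ⟨b, hb, c, hc, hb0, hc0, hcb, hBe⟩ := block_first hB h0
    have hbB : b ∈ B := by rw [hBe]; exact blk_mem2 hb
    have hcB : c ∈ B := by rw [hBe]; exact blk_mem3 hc
    have hbU : b ∈ U k := by
      rw [Q, mem_insert] at hb; exact hb.resolve_left hb0
    have hcU : c ∈ U k := by
      rw [Q, mem_insert] at hc; exact hc.resolve_left hc0
    have hBeq : B = {0, b, c} := by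
      ext x
      simp only [mem_insert, mem_singleton]
      constructor
      · intro hx
        by_contra hcon
        push Not at hcon
        have hxU : x ∈ U k := by
          have := hBQ hx
          rw [Q, mem_insert] at this; exact this.resolve_left hcon.1
        have := blk_circle hB hbU hcU hxU hbB hcB hx hcb.symm hcon.2.1.symm hcon.2.2.symm
        rw [this] at h0
        exact zero_notMem k h0
      · rintro (rfl | rfl | rfl)
        · exact h0
        · exact hbB
        · exact hcB
    obtain ⟨i, hi, rfl⟩ := mem_U.1 hbU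
    obtain ⟨j, hj, rfl⟩ := mem_U.1 hcU
    have hij : i ≠ j := fun e => hcb (by rw [e])
    have anti : ∀ a b : ℕ, f a ∈ B → f b ∈ B → a % 2 = 0 → b = a + 1 → False := by
      intro a b ha hb hev hab
      apply hBL
      refine block_mem_lines hB h0 ha hb (f_ne_zero a).symm (f_ne_zero b) ?_ ?_
      · intro e
        have := f_inj e
        omega
      · have e1 : f b = - f a := by
          unfold f
          rw [if_neg (by omega), if_pos hev]
          have : b / 2 = a / 2 := by omega
          rw [this]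
        rw [e1]
        simp only [cr, Prod.fst_neg, Prod.snd_neg, Prod.fst_zero, Prod.snd_zero]
        ring
    rw [mem_image]
    rcases lt_or_gt_of_ne hij with h | h
    · refine ⟨⟨j, i⟩, ?_, ?_⟩
      · rw [F, mem_sigma, mem_range, mem_filter, mem_range]
        exact ⟨hj, h, fun hh => anti i j hbB hcB hh.1 hh.2⟩
      · rw [hBeq]; simp only; rw [Finset.pair_comm]
    · refine ⟨⟨i, j⟩, ?_, ?_⟩
      · rw [F, mem_sigma, mem_range, mem_filter, mem_range]
        exact ⟨hi, h, fun hh => anti j i hcB hbB hh.1 hh.2⟩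
      · rw [hBeq]
  · left
    obtain ⟨a, ha, b, hb, c, hc, hab, hac, hbc, hBe⟩ := mem_blocks.1 hB
    have haB : a ∈ B := by rw [hBe]; exact blk_mem1 ha
    have hbB : b ∈ B := by rw [hBe]; exact blk_mem2 hb
    have hcB : c ∈ B := by rw [hBe]; exact blk_mem3 hc
    have hU : ∀ x ∈ B, x ∈ U k := by
      intro x hx
      have := hBQ hx
      rw [Q, mem_insert] at this
      rcases this with rfl | h
      · exact absurd hx h0
      · exact h
    exact blk_circle hB (hU a haB) (hU b hbB) (hU c hcB) haB hbB hcB hab hac hbc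

/-- the construction behind the general formula -/
theorem upper (n : ℕ) (hn : 4 ≤ n) : ∃ P : Finset Plane, P.card = n ∧
    Admissible (P : Set Plane) ∧ (Circles (P : Set Plane)).ncard ≤ (n - 2) ^ 2 / 2 + 1 := by
  classical
  obtain ⟨k, rfl⟩ : ∃ k, n = k + 1 + 1 := ⟨n - 2, by omega⟩
  obtain ⟨P, h1, h2, h3⟩ := exists_plane (Q (k + 1)) (by rw [card_Q]; omega) (by
    intro B hB
    by_cases h0 : (0 : Pt) ∈ B
    · by_contra hcon
      push Not at hcon
      have hm : ∀ j, j < k + 1 → f j ∈ U (k + 1) := fun j hj => mem_U.2 ⟨j, hj, rfl⟩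
      have hm' : ∀ j, j < k + 1 → f j ∈ B := fun j hj =>
        hcon _ (by rw [Q, mem_insert]; exact Or.inr (hm j hj))
      have := blk_circle hB (hm 0 (by omega)) (hm 1 (by omega)) (hm 2 (by omega))
        (hm' 0 (by omega)) (hm' 1 (by omega)) (hm' 2 (by omega)) (fun e => by
          have := f_inj e; omega) (fun e => by have := f_inj e; omega)
        (fun e => by have := f_inj e; omega)
      rw [this] at h0
      exact zero_notMem _ h0
    · exact ⟨0, by rw [Q]; exact mem_insert_self _ _, h0⟩)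
  refine ⟨P, by rw [h1, card_Q], h2, ?_⟩
  rw [h3]
  refine (card_le_card (blocks_subset (k + 1))).trans ?_
  refine (card_insert_le _ _).trans ?_
  have h4 := (card_image_le (s := F (k + 1))
    (f := fun q => ({0, f q.1, f q.2} : Finset Pt))).trans (card_F k)
  have e : k + 1 + 1 - 2 = k := by omega
  rw [e]
  omega

end

end Pool.Agent.H111C.UpperF
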