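import Mathlib
import Pool.Agent.H111C.Low14
import Pool.Agent.H111C.Low8
import Pool.Agent.H111C.Low67
import Pool.Agent.H111C.UpperF

/-! Lower bounds for the number of circles of an admissible planar set. -/

namespace Pool.Agent.H111C.Final

open Finset Pool.Agent.Helper543.Melchior Pool.Agent.Helper543.Blocks
open Pool.Agent.Helper543.PlaneC Pool.Agent.Helper543.Count Pool.Agent.Helper543.Bounds
open Pool.Agent.Helper543.Small
open Pool.Agent.H111C.Low Pool.Agent.H111C.Loc Pool.Agent.H111C.Low14 Pool.Agent.H111C.Low8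
open Pool.Agent.H111C.Low67

noncomputable section

theorem low_all {P : Finset Pt} (h3 : 3 ≤ P.card) (hP : ∀ B ∈ blocks P, ∃ x ∈ P, x ∉ B)
    (hn : 4 ≤ P.card) (hn' : P.card < 15) : tgt P.card < cc (cfg P h3 hP) := by
  rcases low_or (cfg P h3 hP) hn hn' (by
    intro hmem
    obtain ⟨x, hx, hx'⟩ := hP _ hmem
    exact hx' hx) with h | ⟨C, hCB, hm, hm', h⟩
  · exact h
  have hPP : (cfg P h3 hP).P = P := rfl
  have key : (P.card = 6 ∧ C.card = 4) ∨ (P.card = 7 ∧ C.card = 4) ∨ (P.card = 8 ∧ C.card = 4) ∨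
      (P.card = 14 ∧ C.card = 6 ∧ C ∈ (cfg P h3 hP).circ) := by
    rcases h with ⟨h1, h2⟩ | ⟨h1, h2⟩
    · rw [hPP] at h2
      unfold excA at h2
      simp only [List.mem_cons, Prod.mk.injEq, List.not_mem_nil, or_false,
        decide_eq_true_eq] at h2
      tauto
    · rw [hPP] at h2
      unfold excB at h2
      simp only [List.mem_cons, Prod.mk.injEq, List.not_mem_nil, or_false,
        decide_eq_true_eq] at h2
      tauto
  have sm : C.card = 4 → Sm (cfg P h3 hP) := fun hC4 =>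
    ⟨fun b hb => (hm b hb).trans hC4.le, fun l hl => (hm' l hl).trans hC4.le⟩
  rcases key with ⟨h1, h2⟩ | ⟨h1, h2⟩ | ⟨h1, h2⟩ | ⟨h1, h2, h4⟩
  · rw [h1]; exact low6 h3 hP h1 (sm h2)
  · rw [h1]; exact low7 h3 hP h1 (sm h2)
  · rw [h1]; exact low8 (sm h2) h1
  · rw [h1]; exact low14 (cfg P h3 hP) h1 h4 h2 hm hm'

/-- the lower bound in the plane for at most fourteen points -/
theorem lower_small (P : Finset Plane) (hn : 4 ≤ P.card) (hn' : P.card < 15)
    (hP : Admissible (P : Set Plane)) :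
    tgt P.card < ((Circles (P : Set Plane)).ncard : ℤ) := by
  rw [ncard_circles]
  rw [admissible_iff P (by omega)] at hP
  have hcard : (P.image phi).card = P.card := card_image_of_injective _ phi_inj
  have h := low_all (P := P.image phi) (by omega) hP (by omega) (by omega)
  have e : tgt (P.image phi).card = tgt P.card := by rw [hcard]
  rw [e] at h
  exact h

/-- the numbers of circles of admissible `n`-point sets -/
def counts (n : ℕ) : Set ℕ :=
  {k | ∃ P : Finset Plane, P.card = n ∧ Admissible (P : Set Plane) ∧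
    (Circles (P : Set Plane)).ncard = k}

theorem counts_nonempty (n : ℕ) (hn : 4 ≤ n) : (counts n).Nonempty := by
  obtain ⟨P, h1, h2, _⟩ := UpperF.upper n hn
  exact ⟨_, P, h1, h2, rfl⟩

theorem sInf_le_of {n k : ℕ} (h : ∃ P : Finset Plane, P.card = n ∧ Admissible (P : Set Plane) ∧
    (Circles (P : Set Plane)).ncard ≤ k) : sInf (counts n) ≤ k := by
  obtain ⟨P, h1, h2, h3⟩ := h
  exact (Nat.sInf_le (⟨P, h1, h2, rfl⟩ : (Circles (P : Set Plane)).ncard ∈ counts n)).trans h3

theorem le_sInf_of {n k : ℕ} (hn : 4 ≤ n) (hn' : n < 15) (hk : (k : ℤ) ≤ tgt n + 1) :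
    k ≤ sInf (counts n) := by
  apply le_csInf (counts_nonempty n hn)
  rintro j ⟨P, rfl, h2, rfl⟩
  have := lower_small P hn hn' h2
  omega

theorem le_sInf_large {n : ℕ} (hn : 15 ≤ n) : (n - 2) ^ 2 / 2 + 1 ≤ sInf (counts n) := by
  apply le_csInf (counts_nonempty n (by omega))
  rintro j ⟨P, rfl, h2, rfl⟩
  exact lower P hn h2

lemma formula (n : ℕ) (hn : 4 ≤ n) : (n - 2) ^ 2 / 2 + 1 = (n - 1).choose 2 + 1 - (n - 1) / 2 := by
  obtain ⟨k, rfl⟩ : ∃ k, n = k + 2 := ⟨n - 2, by omega⟩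
  have e1 : k + 2 - 2 = k := by omega
  have e2 : k + 2 - 1 = k + 1 := by omega
  rw [e1, e2, Nat.choose_two_right]
  have e3 : k + 1 - 1 = k := by omega
  rw [e3]
  obtain ⟨a, ha | ha⟩ : ∃ a, k = 2 * a ∨ k = 2 * a + 1 := ⟨k / 2, by omega⟩
  · subst ha
    have f1 : (2 * a) ^ 2 = 2 * (2 * (a * a)) := by ring
    have f2 : (2 * a + 1) * (2 * a) = 2 * (2 * (a * a) + a) := by ring
    rw [f1, f2]
    omega
  · subst ha
    have f1 : (2 * a + 1) ^ 2 = 2 * (2 * (a * a) + 2 * a) + 1 := by ring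
    have f2 : (2 * a + 1 + 1) * (2 * a + 1) = 2 * (2 * (a * a) + 3 * a + 1) := by ring
    rw [f1, f2]
    omega

end

end Pool.Agent.H111C.Final
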